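import Mathlib

/-!
# H6V, chunk L1 (M), PURE MATHLIB: from absolute values to divisibility, slopes

PROOF. `dvd_of_norm`: copy the lemmas `TR_sqf, TR_dvd_of_pow, TR_sub, TR_coeffs, TR_int_norm, TR_dvd_pow_of_norm` of Lib/H94M/TR.lean
(all pure Mathlib; do not import that file): if all `‖τ x‖ < 1` then `p ∣ x^n` for some `n`, so `p ∣ x` (`p` unramified).
`dvd_sq_of_norm`: by `dvd_of_norm` (`1/p < 1`) `x = p y`, `‖τ y‖ = p ‖τ x‖ < 1` (`‖(p : PadicAlgCl p)‖ = 1/p`), so `p ∣ y`.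
`ord_or_dvd`: if `p ∤ a` there is `τ` with `‖τ a‖ ≥ 1`; choose `x, y` with `x + y = τ a`, `x y = τ c p^(k-1)`
(`PadicAlgCl p` is algebraically closed: roots of `X² - τ(a) X + τ(c) p^(k-1)`; see the end of Lib/H94M/TR.lean, `ordinaryE_of`, which does exactly this for `c = 1`);
`‖τ a‖ ≤ 1` (`a` integral), `‖τ c‖ = 1` (`c` and its inverse are integral), `‖x‖‖y‖ = p^(-(k-1)) < 1`, `‖x‖, ‖y‖ ≤ 1` (integral elements), so one of them,
call it `x`, has norm `1` (else `‖x + y‖ < 1`), and the other `p^(-(k-1))`.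
`small_or_dvd`: if `p² ∤ a` there is `τ` with `‖τ a‖ ≥ 1/p`; one of the roots has norm at least `1/p` (else `‖x+y‖ < 1/p`). No bound for `y` needed.
-/

namespace H6V

open NumberField

/-- A prime not dividing the discriminant generates a squarefree ideal. -/
private theorem l1_sqf {E : Type*} [Field E] [NumberField E] {p : ℕ} (hp : p.Prime)
    (hd : ¬ (p : ℤ) ∣ discr E) : Squarefree (Ideal.span {(p : 𝓞 E)}) := by
  have hpZ : Prime (p : ℤ) := Nat.prime_iff_prime_int.1 hp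
  have h1 := (NumberField.not_dvd_discr_iff_forall_mem E (𝓞 E) hpZ).1 hd
  intro J hJ
  by_contra hu
  have hJ1 : J ≠ ⊤ := fun h => hu (Ideal.isUnit_iff.2 h)
  obtain ⟨P, hPm, hJP⟩ := Ideal.exists_le_maximal J hJ1
  have hPp : P.IsPrime := hPm.isPrime
  have hPJ : P ∣ J := Ideal.dvd_iff_le.2 hJP
  have hPI : P ^ 2 ∣ Ideal.span {(p : 𝓞 E)} := by
    rw [pow_two]
    exact (mul_dvd_mul hPJ hPJ).trans hJ
  have hpP : (p : 𝓞 E) ∈ P := by
    have h3 : Ideal.span {(p : 𝓞 E)} ≤ P ^ 2 := Ideal.dvd_iff_le.1 hPI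
    exact Ideal.pow_le_self (by norm_num) (h3 (Ideal.mem_span_singleton_self _))
  have hun := h1 P hPp (by exact_mod_cast hpP)
  have hun2 : ¬ P ∣ differentIdeal ℤ (𝓞 E) := not_dvd_differentIdeal_iff.2 hun
  apply hun2
  have hmax : (Ideal.span {(p : ℤ)}).IsMaximal :=
    PrincipalIdealRing.isMaximal_of_irreducible hpZ.irreducible
  have hmap : (Ideal.span {(p : ℤ)}).map (algebraMap ℤ (𝓞 E)) = Ideal.span {(p : 𝓞 E)} := by
    rw [Ideal.map_span, Set.image_singleton]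
    simp
  have h4 := pow_sub_one_dvd_differentIdeal ℤ (p := Ideal.span {(p : ℤ)}) P 2
    (by
      intro h
      exact hpZ.ne_zero (Ideal.span_singleton_eq_bot.1 h)) (by rw [hmap]; exact hPI)
  simpa using h4

private theorem l1_dvd_of_pow {E : Type*} [Field E] [NumberField E] {p : ℕ} (hp : p.Prime)
    (hd : ¬ (p : ℤ) ∣ discr E) (x : 𝓞 E) (n : ℕ) (hn : (p : 𝓞 E) ∣ x ^ n) : (p : 𝓞 E) ∣ x := by
  have hp0 : (p : 𝓞 E) ≠ 0 := by exact_mod_cast hp.ne_zero
  have hI0 : (Ideal.span {(p : 𝓞 E)}) ≠ 0 := by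
    intro h
    exact hp0 (Ideal.span_singleton_eq_bot.1 h)
  have hrad := (isRadical_iff_squarefree_of_ne_zero hI0).2 (l1_sqf hp hd)
  have h5 : Ideal.span {(p : 𝓞 E)} ∣ (Ideal.span {x}) ^ n := by
    rw [Ideal.dvd_iff_le, Ideal.span_singleton_pow, Ideal.span_singleton_le_iff_mem]
    exact Ideal.mem_span_singleton.2 hn
  have h6 := hrad n _ h5
  rw [Ideal.dvd_iff_le, Ideal.span_singleton_le_iff_mem] at h6
  exact Ideal.mem_span_singleton.1 h6

private theorem l1_sub (p : ℕ) [Fact p.Prime] (x y : PadicAlgCl p) : ‖x - y‖ ≤ max ‖x‖ ‖y‖ := by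
  rw [sub_eq_add_neg, ← norm_neg y]
  exact IsUltrametricDist.norm_add_le_max _ _

/-- Coefficients of a product of linear factors with small roots. -/
private theorem l1_coeffs (p : ℕ) [Fact p.Prime] (s : Multiset (PadicAlgCl p)) (hs : ∀ r ∈ s, ‖r‖ < 1) :
    (∀ i, ‖((s.map fun r => Polynomial.X - Polynomial.C r).prod).coeff i‖ ≤ 1) ∧
      ∀ i < Multiset.card s, ‖((s.map fun r => Polynomial.X - Polynomial.C r).prod).coeff i‖ < 1 := by
  induction s using Multiset.induction_on with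
  | empty =>
    refine ⟨fun i => ?_, fun i hi => ?_⟩
    · rw [Multiset.map_zero, Multiset.prod_zero, Polynomial.coeff_one]
      split_ifs <;> simp
    · simp at hi
  | cons r s ih =>
    obtain ⟨h1, h2⟩ := ih fun x hx => hs x (Multiset.mem_cons_of_mem hx)
    have hr := hs r (Multiset.mem_cons_self r s)
    set P := (s.map fun r => Polynomial.X - Polynomial.C r).prod with hP
    have hPr : ((r ::ₘ s).map fun r => Polynomial.X - Polynomial.C r).prod =
        (Polynomial.X - Polynomial.C r) * P := by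
      rw [Multiset.map_cons, Multiset.prod_cons]
    have hsm : ∀ i, ‖r * P.coeff i‖ < 1 := by
      intro i
      rw [norm_mul]
      calc ‖r‖ * ‖P.coeff i‖ ≤ ‖r‖ * 1 :=
            mul_le_mul_of_nonneg_left (h1 i) (norm_nonneg _)
        _ < 1 := by rw [mul_one]; exact hr
    rw [hPr]
    have h0 : ((Polynomial.X - Polynomial.C r) * P).coeff 0 = - (r * P.coeff 0) := by
      rw [sub_mul, Polynomial.coeff_sub, Polynomial.coeff_X_mul_zero, Polynomial.coeff_C_mul, zero_sub]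
    have h3 : ∀ i, ((Polynomial.X - Polynomial.C r) * P).coeff (i + 1) =
        P.coeff i - r * P.coeff (i + 1) := by
      intro i
      rw [sub_mul, Polynomial.coeff_sub, Polynomial.coeff_X_mul, Polynomial.coeff_C_mul]
    have hmax : ∀ x y : PadicAlgCl p, ‖x - y‖ ≤ max ‖x‖ ‖y‖ := l1_sub p
    refine ⟨fun i => ?_, fun i hi => ?_⟩
    · rcases i with _ | i
      · rw [h0, norm_neg]
        exact (hsm 0).le
      · rw [h3]
        exact (hmax _ _).trans (max_le (h1 i) (hsm (i + 1)).le)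
    · rw [Multiset.card_cons] at hi
      rcases i with _ | i
      · rw [h0, norm_neg]
        exact hsm 0
      · rw [h3]
        exact (hmax _ _).trans_lt (max_lt (h2 i (by omega)) (hsm (i + 1)))

private theorem l1_int_norm (p : ℕ) [Fact p.Prime] (c : ℤ) (h : ‖(c : PadicAlgCl p)‖ < 1) : (p : ℤ) ∣ c := by
  have h1 : ((c : ℚ_[p]) : PadicAlgCl p) = (c : PadicAlgCl p) := by
    exact map_intCast (algebraMap ℚ_[p] (PadicAlgCl p)) c
  rw [← h1, PadicAlgCl.norm_extends] at h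
  have h2 : ‖((c : ℤ_[p]) : ℚ_[p])‖ < 1 := by
    rw [PadicInt.coe_intCast]
    exact h
  exact (PadicInt.norm_int_lt_one_iff_dvd c).1 h2

/-- If all the `p`-adic absolute values of `x` are less than one, then a power of `x` is divisible
by `p`. -/
private theorem l1_dvd_pow_of_norm {E : Type*} [Field E] [NumberField E] (p : ℕ) [Fact p.Prime] (x : 𝓞 E)
    (hx : ∀ τ : E →+* PadicAlgCl p, ‖τ (x : E)‖ < 1) : ∃ n : ℕ, (p : 𝓞 E) ∣ x ^ n := by
  have hint : IsIntegral ℤ x := Algebra.IsIntegral.isIntegral x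
  have hmin := minpoly.isIntegrallyClosed_eq_field_fractions ℚ E hint
  set P := minpoly ℤ x with hP
  have hPm : P.Monic := minpoly.monic hint
  have hroots : ∀ r ∈ (P.map (Int.castRingHom (PadicAlgCl p))).roots, ‖r‖ < 1 := by
    intro r hr
    have h1 : (P.map (Int.castRingHom (PadicAlgCl p))) =
        (minpoly ℚ (x : E)).map (algebraMap ℚ (PadicAlgCl p)) := by
      have h2 : minpoly ℚ (x : E) = P.map (algebraMap ℤ ℚ) := hmin
      rw [h2, Polynomial.map_map]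
      congr 1
    rw [h1] at hr
    have h3 : r ∈ (minpoly ℚ (x : E)).rootSet (PadicAlgCl p) := by
      rw [Polynomial.mem_rootSet']
      have h4 := Polynomial.mem_roots'.1 hr
      refine ⟨h4.1, ?_⟩
      have h5 := h4.2
      rw [Polynomial.IsRoot.def, Polynomial.eval_map] at h5
      rw [Polynomial.aeval_def]
      exact h5
    rw [← Algebra.IsAlgebraic.range_eval_eq_rootSet_minpoly (F := ℚ) (K := E) (PadicAlgCl p)] at h3
    obtain ⟨τ, rfl⟩ := h3
    exact hx (τ : E →+* PadicAlgCl p)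
  have hspl : P.map (Int.castRingHom (PadicAlgCl p)) =
      ((P.map (Int.castRingHom (PadicAlgCl p))).roots.map
        fun r => Polynomial.X - Polynomial.C r).prod :=
    (IsAlgClosed.splits _).eq_prod_roots_of_monic (hPm.map _)
  have hcard : Multiset.card (P.map (Int.castRingHom (PadicAlgCl p))).roots = P.natDegree := by
    rw [← (IsAlgClosed.splits _).natDegree_eq_card_roots, hPm.natDegree_map]
  have hco := (l1_coeffs p _ hroots).2
  rw [hcard, ← hspl] at hco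
  have hdvd : ∀ i < P.natDegree, (p : ℤ) ∣ P.coeff i := by
    intro i hi
    have h1 := hco i hi
    rw [Polynomial.coeff_map] at h1
    exact l1_int_norm p _ (by simpa using h1)
  refine ⟨P.natDegree, ?_⟩
  have h0 : Polynomial.aeval x P = 0 := minpoly.aeval ℤ x
  rw [hPm.as_sum] at h0
  simp only [map_add, map_pow, Polynomial.aeval_X, map_sum, map_mul, Polynomial.aeval_C] at h0
  rw [← neg_eq_iff_add_eq_zero] at h0
  rw [← dvd_neg, h0]
  refine Finset.dvd_sum fun i hi => ?_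
  obtain ⟨c, hc⟩ := hdvd i (Finset.mem_range.1 hi)
  rw [hc, map_mul]
  refine Dvd.dvd.mul_right ?_ _
  refine Dvd.dvd.mul_right ?_ _
  simp

private theorem l1_norm_le {E : Type*} [Field E] [NumberField E] (p : ℕ) [Fact p.Prime]
    (τ : E →+* PadicAlgCl p) (x : 𝓞 E) : ‖τ (x : E)‖ ≤ 1 := by
  have h1 : IsIntegral ℤ (τ (x : E)) := map_isIntegral_int τ (RingOfIntegers.isIntegral_coe x)
  have h2 : IsIntegral (PadicAlgCl.valued p).v.integer (τ (x : E)) := h1.tower_top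
  have h3 := Valuation.Integers.mem_of_integral
    (Valuation.integer.integers (v := (PadicAlgCl.valued p).v)) h2
  have h4 : (PadicAlgCl.valued p).v (τ (x : E)) ≤ 1 := h3
  rw [PadicAlgCl.valuation_def] at h4
  exact_mod_cast h4

private theorem l1_norm_p (p : ℕ) [Fact p.Prime] : ‖(p : PadicAlgCl p)‖ = (p : ℝ)⁻¹ := by
  have h1 : ((p : ℚ_[p]) : PadicAlgCl p) = (p : PadicAlgCl p) := by
    exact map_natCast (algebraMap ℚ_[p] (PadicAlgCl p)) p
  rw [← h1, PadicAlgCl.norm_extends, Padic.norm_p]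

private theorem l1_root (p : ℕ) [Fact p.Prime] (α β : PadicAlgCl p) :
    ∃ x : PadicAlgCl p, x * x - α * x + β = 0 := by
  have hdeg : (Polynomial.X ^ 2 + Polynomial.C (-α) * Polynomial.X + Polynomial.C β).degree ≠ 0 := by
    have : (Polynomial.C (1 : PadicAlgCl p) * Polynomial.X ^ 2 + Polynomial.C (-α) * Polynomial.X +
      Polynomial.C β).degree = 2 := Polynomial.degree_quadratic one_ne_zero
    rw [Polynomial.C_1, one_mul] at this
    rw [this]
    decide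
  obtain ⟨x, hx⟩ := IsAlgClosed.exists_root _ hdeg
  refine ⟨x, ?_⟩
  rw [Polynomial.IsRoot.def] at hx
  simp only [Polynomial.eval_add, Polynomial.eval_pow, Polynomial.eval_X, Polynomial.eval_mul,
    Polynomial.eval_C] at hx
  linear_combination hx

private theorem l1_slopes (p m : ℕ) [Fact p.Prime] (hm : 1 ≤ m) (α γ : PadicAlgCl p) (hα : ‖α‖ = 1)
    (hγ : ‖γ‖ = 1) :
    ∃ x y : PadicAlgCl p, x + y = α ∧ x * y = γ * (p : PadicAlgCl p) ^ m ∧ ‖x‖ = 1 ∧
      ‖y‖ = (p : ℝ) ^ (-(m : ℤ)) := by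
  have hp : p.Prime := Fact.out
  have hnp := l1_norm_p p
  have hp1 : (1 : ℝ) < p := by exact_mod_cast hp.one_lt
  have hq : ‖γ * (p : PadicAlgCl p) ^ m‖ = (p : ℝ) ^ (-(m : ℤ)) := by
    rw [norm_mul, hγ, one_mul, norm_pow, hnp, zpow_neg, zpow_natCast, inv_pow]
  have hq1 : ‖γ * (p : PadicAlgCl p) ^ m‖ < 1 := by
    rw [norm_mul, hγ, one_mul, norm_pow, hnp]
    exact pow_lt_one₀ (by positivity) (inv_lt_one_of_one_lt₀ hp1) (by omega)
  obtain ⟨x, hx⟩ := l1_root p α (γ * (p : PadicAlgCl p) ^ m)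
  have key : ∀ z : PadicAlgCl p, z * z - α * z + γ * (p : PadicAlgCl p) ^ m = 0 → ‖z‖ ≤ 1 := by
    intro z hz
    by_contra hc
    rw [not_le] at hc
    have h1 : z * z = α * z - γ * (p : PadicAlgCl p) ^ m := by linear_combination hz
    have h2 : ‖z * z‖ ≤ max ‖α * z‖ ‖γ * (p : PadicAlgCl p) ^ m‖ := by
      rw [h1]
      exact l1_sub p _ _
    rw [norm_mul z z, norm_mul α z, hα, one_mul] at h2
    have h3 : max ‖z‖ ‖γ * (p : PadicAlgCl p) ^ m‖ = ‖z‖ := max_eq_left (hq1.le.trans hc.le)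
    rw [h3] at h2
    nlinarith
  have hy : (α - x) * (α - x) - α * (α - x) + γ * (p : PadicAlgCl p) ^ m = 0 := by
    linear_combination hx
  have hxy : x * (α - x) = γ * (p : PadicAlgCl p) ^ m := by linear_combination -hx
  have hnx := key x hx
  have hny := key (α - x) hy
  have hsum : x + (α - x) = α := by ring
  have hmax : (1 : ℝ) ≤ max ‖x‖ ‖α - x‖ := by
    have h1 : ‖x + (α - x)‖ ≤ max ‖x‖ ‖α - x‖ := IsUltrametricDist.norm_add_le_max _ _
    rw [hsum, hα] at h1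
    exact h1
  have hprod : ‖x‖ * ‖α - x‖ = (p : ℝ) ^ (-(m : ℤ)) := by rw [← norm_mul, hxy, hq]
  rcases le_max_iff.1 hmax with h | h
  · have h1 : ‖x‖ = 1 := le_antisymm hnx h
    rw [h1, one_mul] at hprod
    exact ⟨x, α - x, hsum, hxy, h1, hprod⟩
  · have h1 : ‖α - x‖ = 1 := le_antisymm hny h
    rw [h1, mul_one] at hprod
    refine ⟨α - x, x, by ring, by rw [mul_comm]; exact hxy, h1, hprod⟩

private theorem l1_unit {E : Type*} [Field E] [NumberField E] (p : ℕ) [Fact p.Prime]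
    (τ : E →+* PadicAlgCl p) (c : 𝓞 E) (hc : IsUnit c) : ‖τ (c : E)‖ = 1 := by
  obtain ⟨u, rfl⟩ := hc
  have h1 := l1_norm_le p τ (u : 𝓞 E)
  have h2 := l1_norm_le p τ ((u⁻¹ : (𝓞 E)ˣ) : 𝓞 E)
  have h3 : ((u : 𝓞 E) : E) * (((u⁻¹ : (𝓞 E)ˣ) : 𝓞 E) : E) = 1 := by
    rw [← map_mul, Units.mul_inv, map_one]
  have h4 : ‖τ ((u : 𝓞 E) : E)‖ * ‖τ (((u⁻¹ : (𝓞 E)ˣ) : 𝓞 E) : E)‖ = 1 := by
    rw [← norm_mul, ← map_mul, h3, map_one, norm_one]
  have h5 := norm_nonneg (τ ((u : 𝓞 E) : E))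
  have h6 := norm_nonneg (τ (((u⁻¹ : (𝓞 E)ˣ) : 𝓞 E) : E))
  nlinarith

theorem dvd_of_norm {E : Type*} [Field E] [NumberField E] (p : ℕ) [Fact p.Prime]
    (hd : ¬ (p : ℤ) ∣ discr E) (x : 𝓞 E) (hx : ∀ τ : E →+* PadicAlgCl p, ‖τ (x : E)‖ < 1) :
    (p : 𝓞 E) ∣ x := by
  obtain ⟨n, hn⟩ := l1_dvd_pow_of_norm p x hx
  exact l1_dvd_of_pow Fact.out hd x n hn

theorem dvd_sq_of_norm {E : Type*} [Field E] [NumberField E] (p : ℕ) [Fact p.Prime]
    (hd : ¬ (p : ℤ) ∣ discr E) (x : 𝓞 E)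
    (hx : ∀ τ : E →+* PadicAlgCl p, ‖τ (x : E)‖ < (p : ℝ)⁻¹) :
    (p : 𝓞 E) ^ 2 ∣ x := by
  have hp : p.Prime := Fact.out
  have hp1 : (1 : ℝ) < p := by exact_mod_cast hp.one_lt
  have hp0 : (0 : ℝ) < p := by linarith
  have hi : (p : ℝ)⁻¹ < 1 := inv_lt_one_of_one_lt₀ hp1
  obtain ⟨y, hy⟩ := dvd_of_norm p hd x fun τ => (hx τ).trans hi
  have h2 : (p : 𝓞 E) ∣ y := by
    refine dvd_of_norm p hd y fun τ => ?_
    have h3 := hx τ
    have h5 : (((p : 𝓞 E) * y : 𝓞 E) : E) = (p : E) * (y : E) := by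
      push_cast
      rfl
    rw [hy, h5, map_mul, norm_mul, map_natCast, l1_norm_p] at h3
    have h4 : (p : ℝ)⁻¹ * ‖τ (y : E)‖ < (p : ℝ)⁻¹ * 1 := by rw [mul_one]; exact h3
    exact lt_of_mul_lt_mul_left h4 (inv_pos.2 hp0).le
  rw [pow_two, hy]
  exact mul_dvd_mul_left _ h2

theorem ord_or_dvd {E : Type*} [Field E] [NumberField E] (k p : ℕ) (hk : 2 ≤ k) [Fact p.Prime]
    (hd : ¬ (p : ℤ) ∣ discr E) (a c : 𝓞 E) (hc : IsUnit c) :
    (p : 𝓞 E) ∣ a ∨ ∃ (τ : E →+* PadicAlgCl p) (x y : PadicAlgCl p),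
      x + y = τ (a : E) ∧ x * y = τ (c : E) * (p : PadicAlgCl p) ^ (k - 1) ∧
        ‖x‖ = 1 ∧ ‖y‖ = (p : ℝ) ^ (-((k : ℤ) - 1)) := by
  by_cases hpa : (p : 𝓞 E) ∣ a
  · exact Or.inl hpa
  · right
    have h1 : ¬ ∀ τ : E →+* PadicAlgCl p, ‖τ (a : E)‖ < 1 := fun h => hpa (dvd_of_norm p hd a h)
    rw [not_forall] at h1
    obtain ⟨τ, hτ⟩ := h1
    have h2 : ‖τ (a : E)‖ = 1 := le_antisymm (l1_norm_le p τ a) (not_lt.1 hτ)
    obtain ⟨x, y, h3, h4, h5, h6⟩ := l1_slopes p (k - 1) (by omega) (τ (a : E)) (τ (c : E)) h2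
      (l1_unit p τ c hc)
    refine ⟨τ, x, y, h3, h4, h5, ?_⟩
    rw [h6]
    congr 1
    have : ((k - 1 : ℕ) : ℤ) = (k : ℤ) - 1 := by omega
    rw [this]

theorem small_or_dvd {E : Type*} [Field E] [NumberField E] (k p : ℕ) [Fact p.Prime]
    (hd : ¬ (p : ℤ) ∣ discr E) (a c : 𝓞 E) :
    (p : 𝓞 E) ^ 2 ∣ a ∨ ∃ (τ : E →+* PadicAlgCl p) (x y : PadicAlgCl p),
      x + y = τ (a : E) ∧ x * y = τ (c : E) * (p : PadicAlgCl p) ^ (k - 1) ∧
        (p : ℝ)⁻¹ ≤ ‖x‖ := by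
  by_cases hpa : (p : 𝓞 E) ^ 2 ∣ a
  · exact Or.inl hpa
  · right
    have h1 : ¬ ∀ τ : E →+* PadicAlgCl p, ‖τ (a : E)‖ < (p : ℝ)⁻¹ :=
      fun h => hpa (dvd_sq_of_norm p hd a h)
    rw [not_forall] at h1
    obtain ⟨τ, hτ⟩ := h1
    rw [not_lt] at hτ
    obtain ⟨x, hx⟩ := l1_root p (τ (a : E)) (τ (c : E) * (p : PadicAlgCl p) ^ (k - 1))
    have hsum : x + (τ (a : E) - x) = τ (a : E) := by ring
    have hxy : x * (τ (a : E) - x) = τ (c : E) * (p : PadicAlgCl p) ^ (k - 1) := by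
      linear_combination -hx
    have hmax : (p : ℝ)⁻¹ ≤ max ‖x‖ ‖τ (a : E) - x‖ := by
      have h2 : ‖x + (τ (a : E) - x)‖ ≤ max ‖x‖ ‖τ (a : E) - x‖ :=
        IsUltrametricDist.norm_add_le_max _ _
      rw [hsum] at h2
      exact hτ.trans h2
    rcases le_max_iff.1 hmax with h | h
    · exact ⟨τ, x, τ (a : E) - x, hsum, hxy, h⟩
    · exact ⟨τ, τ (a : E) - x, x, by ring, by rw [mul_comm]; exact hxy, h⟩

end H6V
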