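import Mathlib

/-!
# H6V, chunk D2 (M), PURE MATHLIB: conversion of densities, II

PROOF. `pi_lower`: Chebyshev, `π(X) log X ≥ θ(X) ≥ c X` for `X` large (Mathlib.NumberTheory.Chebyshev has lower bounds of `θ` or `ψ`; or see how `GP_theta` in
Lib/H53M/NP.lean or `theta` in Lib/H53M/N*.lean obtains `Σ_{p ≤ X} log p ≥ c X`; or from the central binomial coefficient: `4^n/(2n+1) ≤ C(2n,n) ≤ (2n)^π(2n)`).
`theta_of_count`: `Σ_{p ∈ S, p ≤ X} log p ≥ Σ_{p ∈ S, √X < p ≤ X} (1/2) log X ≥ (1/2) log X (#S(X) - √X - 1)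
≥ (1/2)(δ π(X) log X - (√X + 1) log X) ≥ (δ c/2) X - (√X+1) log X ≥ (δ c/4) X` for `X` large.
-/

namespace H6V

open Filter Topology

theorem pi_lower : ∃ c : ℝ, 0 < c ∧ ∃ X₀ : ℕ, ∀ X : ℕ, X₀ ≤ X →
    c * (X : ℝ) ≤ (Nat.primeCounting X : ℝ) * Real.log X := by
  refine ⟨1 / 4, by norm_num, 4, fun X hX => ?_⟩
  have h1 := Chebyshev.psi_ge X
  have h2 := Chebyshev.psi_le_primeCounting_mul_log X
  refine le_trans ?_ (h1.trans h2)
  have hX' : (4 : ℝ) ≤ X := by exact_mod_cast hX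
  have h3 : Real.log ((X : ℝ) + 1) ≤ ((X : ℝ) + 1) / 4 - 1 + Real.log 4 := by
    have h4 := Real.log_le_sub_one_of_pos (show (0 : ℝ) < ((X : ℝ) + 1) / 4 by positivity)
    rw [Real.log_div (by positivity) (by norm_num)] at h4
    linarith
  have h5 : Real.log 4 = 2 * Real.log 2 := by
    rw [show (4 : ℝ) = 2 ^ 2 by norm_num, Real.log_pow]
    norm_num
  have h6 := Real.log_two_gt_d9
  have h7 := Real.log_two_lt_d9
  nlinarith

private theorem d2_sum (T : Finset ℕ) (X : ℕ) (hX : 1 ≤ X)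
    (hT : ∀ p ∈ T, p ≤ X ∧ p.Prime) :
    ((T.card : ℝ) - Real.sqrt X) * (Real.log X / 2) ≤ ∑ p ∈ T, Real.log p := by
  classical
  have hlogX : 0 ≤ Real.log X := Real.log_nonneg (by exact_mod_cast hX)
  have h1 : ∀ p ∈ T, Real.log X / 2 - (if p ≤ Nat.sqrt X then Real.log X / 2 else 0) ≤
      Real.log p := by
    intro p hp
    have hp1 : 1 ≤ p := (hT p hp).2.one_lt.le
    split_ifs with h
    · have : 0 ≤ Real.log p := Real.log_nonneg (by exact_mod_cast hp1)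
      linarith
    · have h2 : X < p ^ 2 := Nat.sqrt_lt'.1 (not_le.1 h)
      have h3 : Real.log X ≤ Real.log ((p : ℝ) ^ 2) := by
        apply Real.log_le_log (by exact_mod_cast hX)
        exact_mod_cast h2.le
      rw [Real.log_pow] at h3
      push_cast at h3
      linarith
  have h2 := Finset.sum_le_sum h1
  rw [Finset.sum_sub_distrib, Finset.sum_const, nsmul_eq_mul, ← Finset.sum_filter,
    Finset.sum_const, nsmul_eq_mul] at h2
  have h3 : ((T.filter (fun p => p ≤ Nat.sqrt X)).card : ℝ) ≤ Real.sqrt X := by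
    have h4 : T.filter (fun p => p ≤ Nat.sqrt X) ⊆ Finset.Icc 1 (Nat.sqrt X) := by
      intro p hp
      rw [Finset.mem_filter] at hp
      exact Finset.mem_Icc.2 ⟨(hT p hp.1).2.one_lt.le, hp.2⟩
    have h5 := Finset.card_le_card h4
    rw [Nat.card_Icc, Nat.add_sub_cancel] at h5
    calc ((T.filter (fun p => p ≤ Nat.sqrt X)).card : ℝ) ≤ (Nat.sqrt X : ℝ) := by
          exact_mod_cast h5
      _ ≤ Real.sqrt X := Real.nat_sqrt_le_real_sqrt
  have h6 : ((T.filter (fun p => p ≤ Nat.sqrt X)).card : ℝ) * (Real.log X / 2) ≤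
      Real.sqrt X * (Real.log X / 2) :=
    mul_le_mul_of_nonneg_right h3 (by positivity)
  linarith

theorem theta_of_count (S : ℕ → Prop) (δ : ℝ) (hδ : 0 < δ)
    (h : ∀ᶠ X : ℕ in atTop, δ * (Nat.primeCounting X : ℝ) ≤
      (Set.ncard {p : ℕ | p ≤ X ∧ p.Prime ∧ S p} : ℝ)) :
    ∃ c0 : ℝ, 0 < c0 ∧ ∃ X₀ : ℕ, ∀ X ≥ X₀, c0 * (X : ℝ) ≤
      ∑ᶠ p ∈ {p : ℕ | p ≤ X ∧ p.Prime ∧ S p}, Real.log p := by
  classical
  obtain ⟨c, hc, X₁, hX₁⟩ := pi_lower
  obtain ⟨X₂, hX₂⟩ := eventually_atTop.1 h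
  have hlog : ∀ᶠ X : ℕ in atTop, Real.log X ≤ δ * c / 2 * Real.sqrt X := by
    have h1 := (isLittleO_log_rpow_atTop (show (0 : ℝ) < 1 / 2 by norm_num)).bound
      (show 0 < δ * c / 2 by positivity)
    have h2 := tendsto_natCast_atTop_atTop (R := ℝ) |>.eventually h1
    filter_upwards [h2, eventually_ge_atTop 1] with X hX hX1
    rw [Real.norm_eq_abs, Real.norm_eq_abs, ← Real.sqrt_eq_rpow,
      abs_of_nonneg (Real.sqrt_nonneg _)] at hX
    exact (le_abs_self _).trans hX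
  obtain ⟨X₃, hX₃⟩ := eventually_atTop.1 hlog
  refine ⟨δ * c / 4, by positivity, max (max X₁ X₂) (max X₃ 1), fun X hX => ?_⟩
  have hX1 : X₁ ≤ X := le_trans (le_trans (le_max_left _ _) (le_max_left _ _)) hX
  have hX2 : X₂ ≤ X := le_trans (le_trans (le_max_right _ _) (le_max_left _ _)) hX
  have hX3 : X₃ ≤ X := le_trans (le_trans (le_max_left _ _) (le_max_right _ _)) hX
  have hX4 : 1 ≤ X := le_trans (le_trans (le_max_right _ _) (le_max_right _ _)) hX
  have hfin : {p : ℕ | p ≤ X ∧ p.Prime ∧ S p}.Finite :=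
    (Set.finite_Iic X).subset (fun p hp => hp.1)
  rw [finsum_mem_eq_finite_toFinset_sum _ hfin]
  have hcard := hX₂ X hX2
  rw [Set.ncard_eq_toFinset_card _ hfin] at hcard
  have hsum := d2_sum hfin.toFinset X hX4 (fun p hp => by
    rw [Set.Finite.mem_toFinset] at hp
    exact ⟨hp.1, hp.2.1⟩)
  refine le_trans ?_ hsum
  have hlogX : 0 ≤ Real.log X := Real.log_nonneg (by exact_mod_cast hX4)
  have h1 : (δ * (Nat.primeCounting X : ℝ) - Real.sqrt X) * (Real.log X / 2) ≤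
      ((hfin.toFinset.card : ℝ) - Real.sqrt X) * (Real.log X / 2) :=
    mul_le_mul_of_nonneg_right (by linarith) (by positivity)
  refine le_trans ?_ h1
  have h2 := hX₁ X hX1
  have h3 := hX₃ X hX3
  have h4 : Real.sqrt X * Real.log X ≤ δ * c / 2 * X := by
    calc Real.sqrt X * Real.log X ≤ Real.sqrt X * (δ * c / 2 * Real.sqrt X) :=
          mul_le_mul_of_nonneg_left h3 (Real.sqrt_nonneg _)
      _ = δ * c / 2 * (Real.sqrt X * Real.sqrt X) := by ring
      _ = δ * c / 2 * X := by rw [Real.mul_self_sqrt (Nat.cast_nonneg X)]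
  have h5 : δ * (c * X) ≤ δ * ((Nat.primeCounting X : ℝ) * Real.log X) :=
    mul_le_mul_of_nonneg_left h2 hδ.le
  nlinarith

end H6V
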