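import Pool.Agent.Lib.H53M.K0

/-!
# H6V: common definitions (Theorem V, small slopes for every newform of weight at least four)

`a : ℕ → ℤ` are the coefficients of a cusp form of weight `k` on `Γ₁(N)`.

* `fser a` : the series `Σ a(n) qⁿ`;
* `hq a` : the series `θ⁻¹ f = Σ (a(n)/n) qⁿ`;
* `EE b j z` : `Σ_{n ≥ 1} b(n) n^(-j) e(n z)` (also for real `z`);
* `Frm N k a` : the properties of a cusp form which are used;
* `al k j` : the constants of the transformation law of `EE a 1` (the Eichler integral).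
-/

namespace H6V

open H53M PowerSeries

/-- The complex `q`-series with the coefficients `a`. -/
noncomputable def fser (a : ℕ → ℤ) : PowerSeries ℂ := PowerSeries.mk fun n => (a n : ℂ)

/-- `h = θ⁻¹ f = Σ_{n ≥ 1} (a(n)/n) qⁿ`. -/
noncomputable def hq (a : ℕ → ℤ) : PowerSeries ℚ := PowerSeries.mk fun n => (a n : ℚ) / (n : ℚ)

/-- `Σ_{n ≥ 1} b(n) n^(-j) e(n z)` (for `j ≥ 1` the term `n = 0` is zero, for `j = 0` it is `b 0`). -/
noncomputable def EE (b : ℕ → ℂ) (j : ℕ) (z : ℂ) : ℂ :=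
  ∑' n : ℕ, b n * ((n : ℂ) ^ j)⁻¹ * Complex.exp (2 * Real.pi * Complex.I * (n * z))

/-- What is used of a cusp form `Σ a(n) qⁿ` of weight `k` on `Γ₁(N)`. -/
structure Frm (N k : ℕ) (a : ℕ → ℤ) : Prop where
  /-- no constant term -/
  zero : a 0 = 0
  /-- non-triviality -/
  ne : a 1 ≠ 0
  /-- polynomial growth -/
  growth : ∃ (C : ℝ) (K : ℕ), ∀ n, |(a n : ℝ)| ≤ C * ((n : ℝ) + 1) ^ K
  /-- growth on the average -/
  sum : Summable fun n : ℕ => |(a n : ℝ)| / (n : ℝ) ^ (k - 1)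
  /-- modularity -/
  trans : ∀ A B C D : ℤ, A * D - B * C = 1 → (N : ℤ) ∣ C → (N : ℤ) ∣ D - 1 → ∀ z : ℂ, 0 < z.im →
    ev (fser a) ((A * z + B) / (C * z + D)) = (C * z + D) ^ k * ev (fser a) z

/-- `α_j = (-1)^j (k-2)!/(k-2-j)! (2πi)^(-j)`. -/
noncomputable def al (k j : ℕ) : ℂ :=
  (-1) ^ j * ((k - 2).descFactorial j : ℂ) * ((2 * Real.pi * Complex.I) ^ j)⁻¹

end H6V
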