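import Mathlib

/-!
# H6V, chunk H1 (S/M), PURE MATHLIB: divisibility from the Hecke recursion

PROOF. Induction on `r ≥ 1` (strong, for all `n`). `r = 1`: `n = p m`, `a n = a p a m - [p ∣ m] χ p^(k-1) a (m/p)`; `p^j` divides both
(`j ≤ k - 1`). `r ≥ 2`: `n = p m`, `p^(r-1) ∣ m`, `p ∣ m`. `a p a m` is divisible by `p^(j + (r-1) + j - 1)` and
`j + (r - 1) + j - 1 ≥ r + j - 1`. The second term: `m/p` is divisible by `p^(r-2)`: if `r ≥ 3` it is divisible by
`p^((k-1) + (r-2) + j - 1)` and `k ≥ 3`; if `r = 2` by `p^(k-1)`, `k - 1 ≥ j + 1 = r + j - 1`.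
-/

namespace H6V

theorem rec_dvd {A : Type*} [CommRing A] (a χ : ℕ → A) (p k j : ℕ) (hp : p.Prime) (hj : 1 ≤ j)
    (hjk : j + 2 ≤ k)
    (hH : ∀ n, a (p * n) =
      a p * a n - (if p ∣ n then χ p * (p : A) ^ (k - 1) * a (n / p) else 0))
    (hd : (p : A) ^ j ∣ a p) (n r : ℕ) (hr : 1 ≤ r) (hn : p ^ r ∣ n) :
    (p : A) ^ (r + j - 1) ∣ a n := by
  induction r using Nat.strong_induction_on generalizing n with
  | _ r ih =>
    obtain ⟨r, rfl⟩ : ∃ s, r = s + 1 := ⟨r - 1, by omega⟩
    obtain ⟨m, rfl⟩ : ∃ m, n = p * m := by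
      obtain ⟨c, rfl⟩ := hn
      exact ⟨p ^ r * c, by ring⟩
    have hm : p ^ r ∣ m := by
      have h1 : p * p ^ r ∣ p * m := by rw [← pow_succ']; exact hn
      exact Nat.dvd_of_mul_dvd_mul_left hp.pos h1
    rw [hH m]
    apply dvd_sub
    · rcases Nat.eq_zero_or_pos r with h0 | h0
      · subst h0
        refine Dvd.dvd.mul_right ?_ _
        have : 0 + 1 + j - 1 = j := by omega
        rw [this]
        exact hd
      · have h1 := ih r (by omega) m h0 hm
        have h2 : (p : A) ^ (r + 1 + j - 1) ∣ (p : A) ^ j * (p : A) ^ (r + j - 1) := by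
          rw [← pow_add]
          exact pow_dvd_pow _ (by omega)
        exact h2.trans (mul_dvd_mul hd h1)
    · split_ifs with hpm
      · rcases Nat.lt_or_ge r 2 with h2 | h2
        · refine Dvd.dvd.mul_right (Dvd.dvd.mul_left (pow_dvd_pow _ (by omega)) _) _
        · obtain ⟨s, rfl⟩ : ∃ s, r = s + 1 := ⟨r - 1, by omega⟩
          have h3 : p ^ s ∣ m / p := by
            obtain ⟨c, rfl⟩ := hm
            refine ⟨c, ?_⟩
            rw [pow_succ', mul_assoc]
            exact Nat.mul_div_cancel_left _ hp.pos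
          have h4 := ih s (by omega) (m / p) (by omega) h3
          have h5 : (p : A) ^ (s + 1 + 1 + j - 1) ∣ (p : A) ^ (k - 1) * (p : A) ^ (s + j - 1) := by
            rw [← pow_add]
            exact pow_dvd_pow _ (by omega)
          have h6 := h5.trans (mul_dvd_mul (dvd_refl ((p : A) ^ (k - 1))) h4)
          rw [mul_assoc]
          exact Dvd.dvd.mul_left h6 _
      · exact dvd_zero _

end H6V
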