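import Pool.Agent.Lib.H94M.B3
import Pool.Agent.Lib.H53N.Q

/-!
# H6V, chunk M1 (M): the mean square bound for cusp forms on `Γ₁(N)`

PROOF. `heckeL2`: copy of `hecke_L2` (Lib/H94M/B2.lean; helper lemmas `b2_pt, b2_cont, b2_coeff`) with `Gm1 N` and
`one_mem_strictPeriodsG1 N` for `G0 N` and `one_mem_strictPeriods N`.
`cusp_sum`: by `rpow_summable k (fun j => ‖a j‖^2) ..` (Lib/H94M/B3.lean) `Σ ‖a j‖² j^(-k-1/4) < ∞`; and
`‖a j‖ / j^(k-1) ≤ (‖a j‖² j^(-k-1/4) + j^(k + 1/4 - 2(k-1)))/2` (`2xy ≤ x² + y²` with `x = ‖a j‖ j^(-k/2-1/8)`, `y = j^(k/2+1/8-(k-1))`), where the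
exponent `k + 1/4 - 2(k-1) = 9/4 - k ≤ -7/4` for `k ≥ 4`: summable (`Real.summable_nat_rpow`). For `j = 0` the left side is `0`.
-/

namespace H6V

open H53M H94M H53N UpperHalfPlane ModularForm MeasureTheory

private theorem M1_pt (u y : ℝ) (hy : 0 < y) : 0 < ((u : ℂ) + y * Complex.I).im := by
  simpa using hy

private theorem M1_cont (N k : ℕ) [NeZero N] (f : CuspForm (Gm1 N) (k : ℤ)) (y : ℝ) (hy : 0 < y) :
    Continuous fun u : ℝ => (f : ℍ → ℂ) ⟨(u : ℂ) + y * Complex.I, M1_pt u y hy⟩ := by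
  have hf : Continuous (f : ℍ → ℂ) := (CuspFormClass.holo f).continuous
  fun_prop

private theorem M1_coeff (N k : ℕ) [NeZero N] (f : CuspForm (Gm1 N) (k : ℤ)) (y : ℝ) (hy : 0 < y)
    (j : ℕ) :
    fourierCoeffOn (zero_lt_one : (0 : ℝ) < 1)
      (fun u : ℝ => (f : ℍ → ℂ) ⟨(u : ℂ) + y * Complex.I, M1_pt u y hy⟩) (j : ℤ) =
    PowerSeries.coeff j (qExpansion 1 (f : ℍ → ℂ)) * (Real.exp (-(2 * Real.pi * j * y)) : ℂ) := by
  rw [ModularFormClass.qExpansion_coeff_eq_intervalIntegral (F := CuspForm (Gm1 N) (k : ℤ)) f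
    (one_pos) (one_mem_strictPeriodsG1 N) j hy, fourierCoeffOn_eq_integral]
  rw [sub_zero, one_div, one_div, Complex.ofReal_one, inv_one, inv_one, one_smul, one_mul,
    ← intervalIntegral.integral_mul_const]
  refine intervalIntegral.integral_congr fun u _ => ?_
  rw [fourier_coe_apply, smul_eq_mul, mul_right_comm (1 / Function.Periodic.qParam 1 _ ^ j)]
  congr 1
  rw [Function.Periodic.qParam, ← Complex.exp_nat_mul, one_div, ← Complex.exp_neg,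
    Complex.ofReal_exp, ← Complex.exp_add]
  congr 1
  push_cast
  have hI : Complex.I * Complex.I = -1 := Complex.I_mul_I
  field_simp
  linear_combination (j * y : ℂ) * hI

theorem heckeL2 (N k : ℕ) [NeZero N] (f : CuspForm (Gm1 N) (k : ℤ)) :
    ∃ C : ℝ, ∀ y : ℝ, 0 < y →
      Summable (fun j : ℕ => ‖PowerSeries.coeff j (qExpansion 1 (f : ℍ → ℂ))‖ ^ 2 *
        Real.exp (-(4 * Real.pi * j * y))) ∧
      ∑' j : ℕ, ‖PowerSeries.coeff j (qExpansion 1 (f : ℍ → ℂ))‖ ^ 2 *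
        Real.exp (-(4 * Real.pi * j * y)) ≤ C * (y⁻¹) ^ k := by
  obtain ⟨C, hC⟩ := CuspFormClass.exists_bound f
  refine ⟨C ^ 2, fun y hy => ?_⟩
  set G : ℝ → ℂ := fun u : ℝ => (f : ℍ → ℂ) ⟨(u : ℂ) + y * Complex.I, M1_pt u y hy⟩ with hG
  have hGc : Continuous G := M1_cont N k f y hy
  have hGb : ∀ u, ‖G u‖ ≤ C / y ^ ((k : ℝ) / 2) := by
    intro u
    have h := hC ⟨(u : ℂ) + y * Complex.I, M1_pt u y hy⟩
    have him : (⟨(u : ℂ) + y * Complex.I, M1_pt u y hy⟩ : ℍ).im = y := by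
      show ((u : ℂ) + y * Complex.I).im = y
      simp
    rw [him] at h
    simpa using h
  have hM : MemLp G 2 (volume.restrict (Set.Ioc (0 : ℝ) 1)) :=
    MemLp.of_bound hGc.aestronglyMeasurable (C / y ^ ((k : ℝ) / 2)) (Filter.Eventually.of_forall hGb)
  have hS := hasSum_sq_fourierCoeffOn (zero_lt_one : (0 : ℝ) < 1) hM
  have hterm : ∀ j : ℕ, ‖fourierCoeffOn (zero_lt_one : (0 : ℝ) < 1) G (j : ℤ)‖ ^ 2 =
      ‖PowerSeries.coeff j (qExpansion 1 (f : ℍ → ℂ))‖ ^ 2 *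
        Real.exp (-(4 * Real.pi * j * y)) := by
    intro j
    rw [hG, M1_coeff N k f y hy j, norm_mul, mul_pow]
    congr 1
    rw [Complex.norm_real, Real.norm_of_nonneg (Real.exp_pos _).le, ← Real.exp_nat_mul]
    congr 1
    push_cast
    ring
  have hsum : Summable fun j : ℕ => ‖fourierCoeffOn (zero_lt_one : (0 : ℝ) < 1) G (j : ℤ)‖ ^ 2 :=
    hS.summable.comp_injective Nat.cast_injective
  have hle : ∑' j : ℕ, ‖fourierCoeffOn (zero_lt_one : (0 : ℝ) < 1) G (j : ℤ)‖ ^ 2 ≤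
      (1 - 0 : ℝ)⁻¹ • ∫ x in (0 : ℝ)..1, ‖G x‖ ^ 2 := by
    rw [← hS.tsum_eq]
    exact tsum_comp_le_tsum_of_inj hS.summable (fun i => sq_nonneg _) Nat.cast_injective
  simp_rw [hterm] at hsum hle
  refine ⟨hsum, hle.trans ?_⟩
  rw [sub_zero, inv_one, one_smul]
  have h1 : ∫ x in (0 : ℝ)..1, ‖G x‖ ^ 2 ≤ ∫ x in (0 : ℝ)..1, (C / y ^ ((k : ℝ) / 2)) ^ 2 := by
    refine intervalIntegral.integral_mono_on zero_le_one ?_ ?_ fun x _ => ?_
    · exact (hGc.norm.pow 2).intervalIntegrable _ _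
    · exact intervalIntegrable_const
    · exact pow_le_pow_left₀ (norm_nonneg _) (hGb x) 2
  refine h1.trans (le_of_eq ?_)
  rw [intervalIntegral.integral_const, sub_zero, one_smul, div_pow, div_eq_mul_inv, inv_pow]
  congr 2
  rw [← Real.rpow_mul_natCast hy.le, ← Real.rpow_natCast]
  congr 1
  push_cast
  ring

private theorem M1_term (k : ℕ) (hk : 4 ≤ k) (A : ℝ) (n : ℕ) :
    A / (n : ℝ) ^ (k - 1) ≤
      (A ^ 2 * (n : ℝ) ^ (-(k : ℝ) - 1 / 4) + (n : ℝ) ^ ((9 / 4 : ℝ) - k)) / 2 := by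
  rcases Nat.eq_zero_or_pos n with hn | hn
  · subst hn
    have h0 : ((0 : ℕ) : ℝ) ^ (k - 1) = 0 := by
      rw [Nat.cast_zero]
      exact zero_pow (by omega)
    rw [h0, div_zero]
    have h1 : 0 ≤ ((0 : ℕ) : ℝ) ^ (-(k : ℝ) - 1 / 4) := Real.rpow_nonneg (Nat.cast_nonneg 0) _
    have h2 : 0 ≤ ((0 : ℕ) : ℝ) ^ ((9 / 4 : ℝ) - k) := Real.rpow_nonneg (Nat.cast_nonneg 0) _
    have h3 := mul_nonneg (sq_nonneg A) h1
    linarith
  · have hJ : (0 : ℝ) < n := by exact_mod_cast hn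
    have hk1 : ((k - 1 : ℕ) : ℝ) = (k : ℝ) - 1 := by
      rw [Nat.cast_sub (by omega), Nat.cast_one]
    have h1 : A / (n : ℝ) ^ (k - 1) = (A * (n : ℝ) ^ (-(k : ℝ) / 2 - 1 / 8)) *
        (n : ℝ) ^ ((9 / 8 : ℝ) - k / 2) := by
      rw [mul_assoc, ← Real.rpow_add hJ, ← Real.rpow_natCast, hk1, div_eq_mul_inv,
        ← Real.rpow_neg hJ.le]
      congr 2
      ring
    have h2 : (A * (n : ℝ) ^ (-(k : ℝ) / 2 - 1 / 8)) ^ 2 = A ^ 2 * (n : ℝ) ^ (-(k : ℝ) - 1 / 4) := by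
      rw [mul_pow, ← Real.rpow_mul_natCast hJ.le]
      congr 2
      push_cast
      ring
    have h3 : ((n : ℝ) ^ ((9 / 8 : ℝ) - k / 2)) ^ 2 = (n : ℝ) ^ ((9 / 4 : ℝ) - k) := by
      rw [← Real.rpow_mul_natCast hJ.le]
      congr 1
      push_cast
      ring
    rw [h1, ← h2, ← h3]
    have h4 := sq_nonneg (A * (n : ℝ) ^ (-(k : ℝ) / 2 - 1 / 8) - (n : ℝ) ^ ((9 / 8 : ℝ) - k / 2))
    nlinarith [h4]

theorem cusp_sum (N k : ℕ) [NeZero N] (hk : 4 ≤ k) (f : CuspForm (Gm1 N) (k : ℤ)) :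
    Summable fun n : ℕ =>
      ‖PowerSeries.coeff n (qExpansion 1 (f : ℍ → ℂ))‖ / (n : ℝ) ^ (k - 1) := by
  obtain ⟨C, hC⟩ := heckeL2 N k f
  have h1 := rpow_summable k (fun j : ℕ => ‖PowerSeries.coeff j (qExpansion 1 (f : ℍ → ℂ))‖ ^ 2)
    (fun j => sq_nonneg _) C hC
  have h2 : Summable fun n : ℕ => (n : ℝ) ^ ((9 / 4 : ℝ) - k) := by
    rw [Real.summable_nat_rpow]
    have : (4 : ℝ) ≤ k := by exact_mod_cast hk
    linarith
  refine Summable.of_nonneg_of_le (fun n => div_nonneg (norm_nonneg _)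
    (pow_nonneg (Nat.cast_nonneg n) _)) (fun n => ?_) ((h1.add h2).div_const 2)
  exact M1_term k hk _ n

end H6V
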