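import Pool.Agent.Lib.H94M.KE2
import Pool.Agent.Lib.H53M.X16

/-!
# H6V, chunk X4 (S/M): `E₂, E₄, Δ` under a general element of `SL₂(ℤ)`

PROOF. `e4_mob`, `dl_mob`: as `X16_trans` in Lib/H53M/X16.lean, with the element `H94M.gam hdet` of `SL₂(ℤ)` in place of
`S`: `ev (ktoC (toQ g)) τ = f τ` (`X16_ev`), `f ∣[w] gam = f` (`SlashInvariantForm.slash_action_eqn`, the subgroup is
all of `SL₂(ℤ)`), `ModularForm.SL_slash_apply`, `gam_denom`, `gam_smul` (see `KE2_trans` in Lib/H94M/KE2.lean).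
`e2_mob`: from `H94M.KE2_trans` and `X16_e2`, `ev_smul` (as `e2_trans` in X16).
-/

namespace H6V

open H53M H94M H53M.X UpperHalfPlane
open scoped MatrixGroups ModularForm

private theorem X4_trans {F : Type*} [FunLike F ℍ ℂ] (w : ℕ) [ModularFormClass F 𝒮ℒ (w : ℤ)] (f : F)
    (g : PowerSeries ℤ) (h : qExpansion 1 (f : ℍ → ℂ) = H53M.toC g)
    {A B C D : ℤ} (hdet : A * D - B * C = 1) {z : ℂ} (hz : 0 < z.im) :
    ev (ktoC (toQ g)) ((A * z + B) / (C * z + D)) =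
      ((C : ℂ) * z + D) ^ w * ev (ktoC (toQ g)) z := by
  have h1 : (f : ℍ → ℂ) ∣[(w : ℤ)] gam hdet = (f : ℍ → ℂ) :=
    SlashInvariantForm.slash_action_eqn f _ ⟨gam hdet, rfl⟩
  have h2 := congrFun h1 ⟨z, hz⟩
  rw [ModularForm.SL_slash_apply, gam_denom] at h2
  have h4 := X16_ev (k := (w : ℤ)) f g h (gam hdet • (⟨z, hz⟩ : ℍ))
  have h5 := X16_ev (k := (w : ℤ)) f g h ⟨z, hz⟩
  rw [gam_smul] at h4
  rw [← h4, ← h5] at h2
  change ev (ktoC (toQ g)) ((A * z + B) / (C * z + D)) * ((C : ℂ) * z + D) ^ (-(w : ℤ)) =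
    ev (ktoC (toQ g)) z at h2
  have hd := den_ne hdet hz
  rw [zpow_neg, zpow_natCast] at h2
  rw [← h2]
  have h7 : ((C : ℂ) * z + D) ^ w ≠ 0 := pow_ne_zero _ hd
  rw [mul_left_comm, mul_inv_cancel₀ h7, mul_one]

theorem e4_mob {A B C D : ℤ} (hdet : A * D - B * C = 1) {z : ℂ} (hz : 0 < z.im) :
    ev (ktoC (toQ e4)) ((A * z + B) / (C * z + D)) =
      ((C : ℂ) * z + D) ^ 4 * ev (ktoC (toQ e4)) z := by
  exact X4_trans 4 ModularForm.E₄ e4 qExp_E4 hdet hz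

theorem dl_mob {A B C D : ℤ} (hdet : A * D - B * C = 1) {z : ℂ} (hz : 0 < z.im) :
    ev (ktoC (toQ dl)) ((A * z + B) / (C * z + D)) =
      ((C : ℂ) * z + D) ^ 12 * ev (ktoC (toQ dl)) z := by
  exact X4_trans 12 CuspForm.discriminant dl qExp_dl hdet hz

theorem e2_mob {A B C D : ℤ} (hdet : A * D - B * C = 1) {z : ℂ} (hz : 0 < z.im) :
    ev (ktoC (toQ e2)) ((A * z + B) / (C * z + D)) =
      ((C : ℂ) * z + D) ^ 2 * (ev (ktoC (toQ e2)) z +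
        12 / (2 * Real.pi * Complex.I) * ((C : ℂ) / ((C : ℂ) * z + D))) := by
  have hz' : 0 < (((A : ℂ) * z + B) / (C * z + D)).im := by
    have h := (gam hdet • (⟨z, hz⟩ : ℍ)).im_pos
    have h3 := gam_smul hdet (⟨z, hz⟩ : ℍ)
    have h4 : (((gam hdet • (⟨z, hz⟩ : ℍ) : ℍ)) : ℂ).im = (((A : ℂ) * z + B) / (C * z + D)).im := by
      rw [h3]
    rw [← h4]
    exact h
  rw [X16_e2, ev_smul _ KE2_Cv hz, ev_smul _ KE2_Cv hz', KE2_trans hdet z hz]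
  have hd := den_ne hdet hz
  have hpi : (Real.pi : ℂ) ≠ 0 := by exact_mod_cast Real.pi_ne_zero
  have hI : Complex.I ≠ 0 := Complex.I_ne_zero
  field_simp

end H6V
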