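import Pool.Agent.Lib.H6V.Defs
import Pool.Agent.Lib.H53N.K

/-!
# H6V, chunk K1 (M): the array `KArr` of a cusp form on `Γ₁(N)` (one variable)

PROOF. All fields are elementary: `ι = Fin 1`, `Λ` = the positive integers, `ν(n) = n`, trace = norm `= n`, `q2 = 1`. `es_eq`: `MvPolynomial.esymm (Fin 1) ℤ j` evaluated at the
constant function `n` is `1` (`j = 0`), `n` (`j = 1`), `0` (`j ≥ 2`: `Finset.powersetCard` of a larger number than the
cardinality is empty): `MvPolynomial.esymm`, `map_sum`, `Finset.powersetCard_zero`/`powersetCard_one`, `Finset.univ_unique`.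
`card_le`: the fibre has at most one element. `karr_hs`: coefficientwise, the fibre of `n` is `{n}` (`n ≥ 1`) or empty.
`karr_G`: `(karr a h).G z = ev (fser a) (z 0)` if `im (z 0) > 0` (sum over the positive integers = sum over `ℕ`, as `a 0 = 0`:
`tsum_subtype`/`tsum_eq_tsum_of_ne_zero_bij`, the equality holds as functions: indicator), then `hF.trans` with `∏_{i : Fin 1}` = the only factor.
-/

namespace H6V

open H53M H94M H53N H36H PowerSeries

/-- The one variable array. -/
noncomputable def karr (a : ℕ → ℤ)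
    (h : ∃ (C : ℝ) (K : ℕ), ∀ n, |(a n : ℝ)| ≤ C * ((n : ℝ) + 1) ^ K) :
    KArr (Fin 1) {n : ℕ // 0 < n} where
  nu ξ _ := (ξ.1 : ℝ)
  tr ξ := ξ.1
  fib n := if hn : 0 < n then {⟨n, hn⟩} else ∅
  mem_fib := by
    intro n ξ
    by_cases hn : 0 < n
    · rw [dif_pos hn, Finset.mem_singleton]
      constructor
      · intro e
        rw [e]
      · intro e
        exact Subtype.ext e
    · rw [dif_neg hn]
      constructor
      · intro e
        exact absurd e (Finset.notMem_empty _)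
      · intro e
        exact absurd (e ▸ ξ.2) hn
  nu_pos := by
    intro ξ _
    exact_mod_cast ξ.2
  nu_sum := by
    intro ξ
    simp
  es ξ j := if j = 0 then 1 else if j = 1 then (ξ.1 : ℤ) else 0
  es_eq := by
    intro ξ j
    rcases j with _ | _ | j
    · rw [MvPolynomial.esymm_zero]
      simp
    · rw [MvPolynomial.esymm_one]
      simp
    · have h1 : MvPolynomial.esymm (Fin 1) ℤ (j + 1 + 1) = 0 := by
        unfold MvPolynomial.esymm
        rw [Finset.powersetCard_eq_empty.2 (by simp), Finset.sum_empty]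
      rw [h1]
      simp
  nm ξ := (ξ.1 : ℤ)
  nm_eq := by
    intro ξ
    simp
  q2 _ := 1
  q2_eq := by
    intro ξ
    have h1 : ((ξ.1 : ℕ) : ℝ) ≠ 0 := by
      have := ξ.2
      positivity
    simp [h1]
  card_le := by
    refine ⟨1, 0, fun n => ?_⟩
    rw [pow_zero, mul_one]
    by_cases hn : 0 < n
    · rw [dif_pos hn, Finset.card_singleton, Nat.cast_one]
    · rw [dif_neg hn, Finset.card_empty, Nat.cast_zero]
      exact zero_le_one
  c ξ := a ξ.1
  c_le := by
    obtain ⟨C, K, hC⟩ := h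
    exact ⟨C, K, fun ξ => hC ξ.1⟩

theorem karr_hs (a : ℕ → ℤ)
    (h : ∃ (C : ℝ) (K : ℕ), ∀ n, |(a n : ℝ)| ≤ C * ((n : ℝ) + 1) ^ K) :
    (karr a h).hs = hq a := by
  ext n
  unfold KArr.hs hq
  rw [PowerSeries.coeff_mk, PowerSeries.coeff_mk]
  by_cases hn : 0 < n
  · have h1 : (karr a h).fib n = {⟨n, hn⟩} := dif_pos hn
    rw [h1, Finset.sum_singleton]
    change ((a n : ℚ) * ((1 : ℤ) : ℚ)) / (((n : ℕ) : ℤ) : ℚ) = _
    simp
  · have h1 : (karr a h).fib n = ∅ := dif_neg hn
    rw [h1, Finset.sum_empty]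
    have h2 : n = 0 := by omega
    rw [h2]
    simp

private theorem K1_G (a : ℕ → ℤ) (h0 : a 0 = 0)
    (h : ∃ (C : ℝ) (K : ℕ), ∀ n, |(a n : ℝ)| ≤ C * ((n : ℝ) + 1) ^ K) (z : Fin 1 → ℂ) :
    (karr a h).G z = ev (fser a) (z 0) := by
  unfold KArr.G ev fser
  have h1 : ∀ ξ : {n : ℕ // 0 < n}, ((karr a h).c ξ : ℂ) *
      Complex.exp (2 * Real.pi * Complex.I * ∑ i, ((karr a h).nu ξ i : ℂ) * z i) =
      (fun n : ℕ => (a n : ℂ) * Complex.exp (2 * Real.pi * Complex.I * (n * z 0))) ξ := by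
    intro ξ
    change (a ξ.1 : ℂ) * Complex.exp (2 * Real.pi * Complex.I *
      ∑ i : Fin 1, (((ξ.1 : ℕ) : ℝ) : ℂ) * z i) = _
    rw [Fin.sum_univ_one, Complex.ofReal_natCast]
  rw [tsum_congr h1]
  have h2 : Function.support (fun n : ℕ =>
      (a n : ℂ) * Complex.exp (2 * Real.pi * Complex.I * (n * z 0))) ⊆ {n : ℕ | 0 < n} := by
    intro n hn
    by_contra hc
    have hn0 : n = 0 := by
      have : ¬ 0 < n := hc
      omega
    apply hn
    change (a n : ℂ) * _ = 0
    rw [hn0, h0, Int.cast_zero, zero_mul]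
  have h3 := tsum_subtype_eq_of_support_subset h2
  refine Eq.trans h3 (tsum_congr fun n => ?_)
  rw [PowerSeries.coeff_mk]

theorem karr_G {N k : ℕ} {a : ℕ → ℤ} (hF : Frm N k a) :
    DTransI1 N k (karr a hF.growth).G := by
  intro A B C D hdet hC hD z hz
  rw [K1_G a hF.zero, K1_G a hF.zero, Fin.prod_univ_one]
  exact hF.trans A B C D hdet hC hD (z 0) (hz 0)

end H6V
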