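import Pool.Agent.Lib.H6V.Defs

/-!
# H6V, chunk X1 (M): absolute convergence and derivative of `EE b j` in the upper half plane

PROOF. For `0 < ε < im z` and `‖b n‖ ≤ C (n+1)^K` the terms are at most
`C (n+1)^K exp(-2π ε n)` in the half plane `im > ε` (`‖(n^j)⁻¹‖ ≤ 1` for all natural `n`, also `n = 0`:
there it is `0` or `1`), which is summable (`summable_pow_mul_geometric_of_norm_lt_one`; compare
`KArr.summable_pow`, `KArr.GA_deriv` in Lib/H36H/KArr.lean). Derivative: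
`hasDerivAt_tsum_of_isPreconnected` on the convex open set `{im > ε}` exactly as in `KArr.GA_deriv`; the
derivative of the `n`-th term of `EE b (j+1)` is `2πi n` times it, and `n (n^(j+1))⁻¹ = (n^j)⁻¹` for `n ≥ 1`; for
`n = 0` both sides vanish because of `b 0 = 0`.
`EE_zero`, `EE_one`: unfold `ev`, `fser`, `hq`, `ktoC`, coefficientwise equality (`b 0 = 0` is not needed in
`EE_one`: `(0 : ℂ)⁻¹ = 0`). `hq_Cv`: from `EE_summable` with `j = 1`.
-/

namespace H6V

open H53M PowerSeries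

private theorem X1_C {b : ℕ → ℂ} {C : ℝ} {K : ℕ} (hb : ∀ n, ‖b n‖ ≤ C * ((n : ℝ) + 1) ^ K) :
    0 ≤ C := by
  have h := (norm_nonneg _).trans (hb 0)
  simpa using h

private theorem X1_summable (C : ℝ) (K : ℕ) {ε : ℝ} (hε : 0 < ε) :
    Summable fun n : ℕ => C * (((n : ℝ) + 1) ^ K * Real.exp (-(2 * Real.pi * ε * n))) := by
  set r : ℝ := Real.exp (-(2 * Real.pi * ε)) with hr
  have hr0 : 0 < r := Real.exp_pos _
  have hr1 : ‖r‖ < 1 := by
    rw [Real.norm_of_nonneg hr0.le, hr, Real.exp_lt_one_iff]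
    have := mul_pos (mul_pos (by norm_num : (0 : ℝ) < 2) Real.pi_pos) hε
    linarith
  have h1 := (summable_pow_mul_geometric_of_norm_lt_one K hr1)
  refine Summable.mul_left C ?_
  have h3 := (summable_nat_add_iff 1).2 h1
  refine (h3.mul_left r⁻¹).congr fun n => ?_
  have e1 : Real.exp (-(2 * Real.pi * ε * n)) = r ^ n := by
    rw [hr, ← Real.exp_nat_mul]
    congr 1
    ring
  rw [e1]
  push_cast
  rw [pow_succ]
  field_simp

private theorem X1_inv (n j : ℕ) : ‖((n : ℂ) ^ j)⁻¹‖ ≤ 1 := by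
  rw [norm_inv, norm_pow, Complex.norm_natCast]
  rcases Nat.eq_zero_or_pos n with rfl | hn
  · rcases Nat.eq_zero_or_pos j with rfl | hj
    · simp
    · simp [zero_pow hj.ne']
  · apply inv_le_one_of_one_le₀
    exact one_le_pow₀ (by exact_mod_cast hn)

private theorem X1_exp (n : ℕ) (z : ℂ) :
    ‖Complex.exp (2 * Real.pi * Complex.I * (n * z))‖ = Real.exp (-(2 * Real.pi * z.im * n)) := by
  rw [Complex.norm_exp]
  congr 1
  simp
  ring

private theorem X1_bound {b : ℕ → ℂ} {C : ℝ} {K : ℕ} (hb : ∀ n, ‖b n‖ ≤ C * ((n : ℝ) + 1) ^ K)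
    (j : ℕ) {ε : ℝ} {z : ℂ} (hz : ε ≤ z.im) (n : ℕ) :
    ‖b n * ((n : ℂ) ^ j)⁻¹ * Complex.exp (2 * Real.pi * Complex.I * (n * z))‖ ≤
      C * (((n : ℝ) + 1) ^ K * Real.exp (-(2 * Real.pi * ε * n))) := by
  have hC := X1_C hb
  rw [norm_mul, norm_mul, X1_exp, ← mul_assoc]
  have h1 : ‖b n‖ * ‖((n : ℂ) ^ j)⁻¹‖ ≤ C * ((n : ℝ) + 1) ^ K :=
    calc ‖b n‖ * ‖((n : ℂ) ^ j)⁻¹‖ ≤ ‖b n‖ * 1 :=
          mul_le_mul_of_nonneg_left (X1_inv n j) (norm_nonneg _)
      _ = ‖b n‖ := mul_one _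
      _ ≤ _ := hb n
  have h2 : Real.exp (-(2 * Real.pi * z.im * n)) ≤ Real.exp (-(2 * Real.pi * ε * n)) := by
    apply Real.exp_le_exp.2
    have h3 : 2 * Real.pi * ε * n ≤ 2 * Real.pi * z.im * n :=
      mul_le_mul_of_nonneg_right
        (mul_le_mul_of_nonneg_left hz (by positivity)) (Nat.cast_nonneg n)
    linarith
  exact mul_le_mul h1 h2 (Real.exp_pos _).le (by positivity)

theorem EE_summable (b : ℕ → ℂ) (C : ℝ) (K : ℕ) (hb : ∀ n, ‖b n‖ ≤ C * ((n : ℝ) + 1) ^ K) (j : ℕ)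
    {z : ℂ} (hz : 0 < z.im) :
    Summable fun n : ℕ =>
      ‖b n * ((n : ℂ) ^ j)⁻¹ * Complex.exp (2 * Real.pi * Complex.I * (n * z))‖ := by
  refine Summable.of_nonneg_of_le (fun n => norm_nonneg _) (fun n => X1_bound hb j le_rfl n)
    (X1_summable C K hz)

theorem EE_deriv (b : ℕ → ℂ) (C : ℝ) (K : ℕ) (hb : ∀ n, ‖b n‖ ≤ C * ((n : ℝ) + 1) ^ K)
    (hb0 : b 0 = 0) (j : ℕ) {z : ℂ} (hz : 0 < z.im) :
    HasDerivAt (EE b (j + 1)) (2 * Real.pi * Complex.I * EE b j z) z := by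
  have hε : 0 < z.im / 2 := by linarith
  have hzε : z.im / 2 < z.im := by linarith
  have hd := hasDerivAt_tsum_of_isPreconnected
    (g := fun (n : ℕ) (y : ℂ) =>
      b n * ((n : ℂ) ^ (j + 1))⁻¹ * Complex.exp (2 * Real.pi * Complex.I * (n * y)))
    (g' := fun (n : ℕ) (y : ℂ) => 2 * Real.pi * Complex.I *
      (b n * ((n : ℂ) ^ j)⁻¹ * Complex.exp (2 * Real.pi * Complex.I * (n * y))))
    ((X1_summable C K hε).mul_left ‖(2 * Real.pi * Complex.I : ℂ)‖)
    (isOpen_lt continuous_const Complex.continuous_im : IsOpen {y : ℂ | z.im / 2 < y.im})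
    (convex_halfSpace_im_gt (z.im / 2)).isPreconnected
    (fun n y _ => by
      have h1 : HasDerivAt (fun y : ℂ => 2 * Real.pi * Complex.I * (n * y))
          (2 * Real.pi * Complex.I * (n * 1)) y :=
        ((hasDerivAt_id y).const_mul (n : ℂ)).const_mul _
      have h2 := (h1.cexp).const_mul (b n * ((n : ℂ) ^ (j + 1))⁻¹)
      refine h2.congr_deriv ?_
      rcases Nat.eq_zero_or_pos n with rfl | hn
      · simp [hb0]
      · have hn' : (n : ℂ) ≠ 0 := by exact_mod_cast hn.ne'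
        field_simp
        ring)
    (fun n y hy => by
      rw [norm_mul]
      exact mul_le_mul_of_nonneg_left (X1_bound hb j (le_of_lt hy) n) (norm_nonneg _))
    (show z ∈ {y : ℂ | z.im / 2 < y.im} from hzε)
    (EE_summable b C K hb (j + 1) hz).of_norm
    (show z ∈ {y : ℂ | z.im / 2 < y.im} from hzε)
  rw [tsum_mul_left] at hd
  exact hd

theorem EE_zero (a : ℕ → ℤ) (z : ℂ) : EE (fun n => (a n : ℂ)) 0 z = ev (fser a) z := by
  unfold EE ev fser
  refine tsum_congr fun n => ?_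
  simp [PowerSeries.coeff_mk]

theorem EE_one (a : ℕ → ℤ) (z : ℂ) : EE (fun n => (a n : ℂ)) 1 z = ev (ktoC (hq a)) z := by
  unfold EE ev hq ktoC
  refine tsum_congr fun n => ?_
  rw [PowerSeries.coeff_map, PowerSeries.coeff_mk]
  simp [div_eq_mul_inv]

theorem hq_Cv {N k : ℕ} {a : ℕ → ℤ} (hF : Frm N k a) : Cv (ktoC (hq a)) := by
  obtain ⟨C, K, hC⟩ := hF.growth
  intro z hz
  have h := EE_summable (fun n => (a n : ℂ)) C K (fun n => by
    rw [Complex.norm_intCast]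
    exact hC n) 1 hz
  refine h.congr fun n => ?_
  unfold hq ktoC
  rw [PowerSeries.coeff_map, PowerSeries.coeff_mk]
  simp [div_eq_mul_inv]

end H6V
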