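import Pool.Agent.Lib.H6V.X2
import Pool.Agent.Lib.H6V.X3

/-!
# H6V, chunk X3B (M): the constant of the transformation law

PROOF. Let `c` be the constant of `EE_const`, `x₀ = -D/C`, `b n = (a n : ℂ)`. Take `z = x₀ + i y`, `y → 0+`. Then
`C z + D = i C y`, `(A z + B)/(C z + D) = A/C + i /(C² y)` (as `A D - B C = 1`). So the left side is
`EE b 1 (A/C + i (C² y)⁻¹) → 0` (`EE_inf` composed with `y ↦ (C² y)⁻¹ → ∞`, `tendsto_inv_nhdsGT_zero`). On the right the term `j < k-2`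
is a constant times `y^m EE b (j+1) (x₀+iy)`, `m = k-2-j ≥ 1`, `j + 1 = (k-1) - m`, so it tends to `0` (`EE_lim` with
`K = k-1`), and the term `j = k-2` is `α_{k-2} C^(k-2) EE b (k-1) (x₀+iy)`, which tends to
`α_{k-2} C^(k-2) EE b (k-1) x₀` (`EE_lim0`). Hence `0 = α_{k-2} C^(k-2) EE b (k-1) x₀ + c` (uniqueness of limits,
`𝓝[>] 0` is `NeBot`). The hypothesis on the sum is `hF.sum` (`‖(a n : ℂ)‖ = |(a n : ℝ)|`).
-/

namespace H6V

open H53M H94M Filter Topology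

private theorem x3b_tend {C : ℝ} (hC : 0 < C) :
    Tendsto (fun y : ℝ => (C ^ 2 * y)⁻¹) (𝓝[>] 0) atTop := by
  have h1 : Tendsto (fun y : ℝ => (C ^ 2)⁻¹ * y⁻¹) (𝓝[>] 0) atTop :=
    tendsto_inv_nhdsGT_zero.const_mul_atTop (by positivity)
  refine h1.congr fun y => ?_
  rw [mul_inv]

private theorem x3b_mob {A B C D y : ℝ} (hC : 0 < C) (hy : 0 < y) (hdet : A * D - B * C = 1) :
    ((A : ℂ) * (((-D / C : ℝ) : ℂ) + y * Complex.I) + B) /
      (C * (((-D / C : ℝ) : ℂ) + y * Complex.I) + D) =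
      ((A / C : ℝ) : ℂ) + (((C ^ 2 * y)⁻¹ : ℝ) : ℂ) * Complex.I := by
  have hC' : (C : ℂ) ≠ 0 := by exact_mod_cast hC.ne'
  have hy' : (y : ℂ) ≠ 0 := by exact_mod_cast hy.ne'
  have hd : (A : ℂ) * D - B * C = 1 := by exact_mod_cast hdet
  have hI : Complex.I * Complex.I = -1 := Complex.I_mul_I
  have hden : (C : ℂ) * (((-D / C : ℝ) : ℂ) + y * Complex.I) + D = C * y * Complex.I := by
    push_cast
    field_simp
    ring
  have hne : (C : ℂ) * y * Complex.I ≠ 0 := mul_ne_zero (mul_ne_zero hC' hy') Complex.I_ne_zero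
  rw [hden, div_eq_iff hne]
  push_cast
  field_simp
  ring_nf
  rw [Complex.I_sq]
  linear_combination (-1 : ℂ) * hd

theorem EE_trans {N k : ℕ} (hk : 3 ≤ k) {a : ℕ → ℤ} (hF : Frm N k a) {A B C D : ℤ}
    (hdet : A * D - B * C = 1) (hNC : (N : ℤ) ∣ C) (hND : (N : ℤ) ∣ D - 1) (hC : 0 < C) {z : ℂ}
    (hz : 0 < z.im) :
    EE (fun n => (a n : ℂ)) 1 ((A * z + B) / (C * z + D)) =
      ∑ j ∈ Finset.range (k - 1), al k j * (C : ℂ) ^ j * (C * z + D) ^ (k - 2 - j) *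
        EE (fun n => (a n : ℂ)) (j + 1) z -
      al k (k - 2) * (C : ℂ) ^ (k - 2) *
        EE (fun n => (a n : ℂ)) (k - 1) ((-(D : ℝ) / (C : ℝ) : ℝ) : ℂ) := by
  obtain ⟨c, hc⟩ := EE_const hk hF hdet hNC hND
  obtain ⟨C₀, K, hgr⟩ := hF.growth
  have hnorm : ∀ n, ‖((a n : ℤ) : ℂ)‖ = |(a n : ℝ)| := by
    intro n
    rw [Complex.norm_intCast]
  have hb : ∀ n, ‖((a n : ℤ) : ℂ)‖ ≤ C₀ * ((n : ℝ) + 1) ^ K := by
    intro n
    rw [hnorm]
    exact hgr n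
  have hb0 : ((a 0 : ℤ) : ℂ) = 0 := by rw [hF.zero, Int.cast_zero]
  have hs : Summable fun n : ℕ => ‖((a n : ℤ) : ℂ)‖ / (n : ℝ) ^ (k - 1) := by
    simp only [hnorm]
    exact hF.sum
  have hCr : (0 : ℝ) < (C : ℝ) := by exact_mod_cast hC
  have hdr : (A : ℝ) * D - B * C = 1 := by exact_mod_cast hdet
  obtain ⟨x, hx⟩ : ∃ x : ℝ, x = -(D : ℝ) / (C : ℝ) := ⟨_, rfl⟩
  obtain ⟨E, hE⟩ : ∃ E : ℕ → ℂ → ℂ, E = fun j => EE (fun n => (a n : ℂ)) j := ⟨_, rfl⟩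
  obtain ⟨m, rfl⟩ : ∃ m, k = m + 2 := ⟨k - 2, by omega⟩
  have hc' : ∀ z : ℂ, 0 < z.im → E 1 ((A * z + B) / (C * z + D)) =
      ∑ j ∈ Finset.range (m + 1), al (m + 2) j * (C : ℂ) ^ j * (C * z + D) ^ (m - j) *
        E (j + 1) z + c := by
    intro z hz
    rw [hE]
    exact hc z hz
  -- the left side
  have hL : Tendsto (fun y : ℝ => E 1 ((A * ((x : ℂ) + y * Complex.I) + B) /
      (C * ((x : ℂ) + y * Complex.I) + D))) (𝓝[>] 0) (𝓝 0) := by
    have h1 : Tendsto (fun y : ℝ => E 1 ((((A : ℝ) / (C : ℝ) : ℝ) : ℂ) + y * Complex.I))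
        atTop (𝓝 0) := by
      rw [hE]
      exact EE_inf (fun n => (a n : ℂ)) C₀ K hb ((A : ℝ) / (C : ℝ))
    refine (h1.comp (x3b_tend hCr)).congr' ?_
    filter_upwards [self_mem_nhdsWithin] with y hy
    have h2 := x3b_mob hCr (Set.mem_Ioi.mp hy) hdr
    have h3 : ((A : ℂ) * ((x : ℂ) + y * Complex.I) + B) / (C * ((x : ℂ) + y * Complex.I) + D) =
        (((A : ℝ) / (C : ℝ) : ℝ) : ℂ) + ((((C : ℝ) ^ 2 * y)⁻¹ : ℝ) : ℂ) * Complex.I := by
      rw [← h2, hx]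
      push_cast
      rfl
    rw [h3]
    rfl
  -- the terms of the right side
  have hden : ∀ y : ℝ, (C : ℂ) * ((x : ℂ) + y * Complex.I) + D = C * y * Complex.I := by
    intro y
    have hC' : (C : ℂ) ≠ 0 := by exact_mod_cast hC.ne'
    rw [hx]
    push_cast
    field_simp
    ring
  have hT : ∀ j ∈ Finset.range m, Tendsto (fun y : ℝ => al (m + 2) j * (C : ℂ) ^ j *
      (C * ((x : ℂ) + y * Complex.I) + D) ^ (m - j) * E (j + 1) ((x : ℂ) + y * Complex.I))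
      (𝓝[>] 0) (𝓝 0) := by
    intro j hj
    have hjm : j < m := Finset.mem_range.mp hj
    have h1 : Tendsto (fun y : ℝ => (y : ℂ) ^ (m - j) * E (j + 1) ((x : ℂ) + y * Complex.I))
        (𝓝[>] 0) (𝓝 0) := by
      have h2 := EE_lim (fun n => (a n : ℂ)) (m + 2 - 1) (m - j) (by omega) (by omega) hb0 hs x
      have h3 : m + 2 - 1 - (m - j) = j + 1 := by omega
      rw [h3] at h2
      rw [hE]
      exact h2
    have h4 := h1.const_mul (al (m + 2) j * (C : ℂ) ^ j * ((C : ℂ) * Complex.I) ^ (m - j))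
    rw [mul_zero] at h4
    refine h4.congr fun y => ?_
    rw [hden y, show (C : ℂ) * y * Complex.I = (C * Complex.I) * y by ring, mul_pow]
    ring
  have hS : Tendsto (fun y : ℝ => ∑ j ∈ Finset.range m, al (m + 2) j * (C : ℂ) ^ j *
      (C * ((x : ℂ) + y * Complex.I) + D) ^ (m - j) * E (j + 1) ((x : ℂ) + y * Complex.I))
      (𝓝[>] 0) (𝓝 0) := by
    have h1 := tendsto_finsetSum (Finset.range m) hT
    rw [Finset.sum_const_zero] at h1
    exact h1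
  have hM : Tendsto (fun y : ℝ => al (m + 2) m * (C : ℂ) ^ m *
      (C * ((x : ℂ) + y * Complex.I) + D) ^ (m - m) * E (m + 1) ((x : ℂ) + y * Complex.I))
      (𝓝[>] 0) (𝓝 (al (m + 2) m * (C : ℂ) ^ m * E (m + 1) (x : ℂ))) := by
    have h1 : Tendsto (fun y : ℝ => E (m + 1) ((x : ℂ) + y * Complex.I)) (𝓝[>] 0)
        (𝓝 (E (m + 1) (x : ℂ))) := by
      rw [hE]
      exact EE_lim0 (fun n => (a n : ℂ)) (m + 1) (by omega) hs x
    refine (h1.const_mul (al (m + 2) m * (C : ℂ) ^ m)).congr fun y => ?_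
    rw [Nat.sub_self, pow_zero, mul_one]
  have hR : Tendsto (fun y : ℝ => E 1 ((A * ((x : ℂ) + y * Complex.I) + B) /
      (C * ((x : ℂ) + y * Complex.I) + D))) (𝓝[>] 0)
      (𝓝 (0 + al (m + 2) m * (C : ℂ) ^ m * E (m + 1) (x : ℂ) + c)) := by
    refine ((hS.add hM).add_const c).congr' ?_
    filter_upwards [self_mem_nhdsWithin] with y hy
    have hz' : 0 < ((x : ℂ) + y * Complex.I).im := by
      simpa using hy
    rw [hc' _ hz', Finset.sum_range_succ]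
  have hu := tendsto_nhds_unique hL hR
  have hcc : c = -(al (m + 2) m * (C : ℂ) ^ m * E (m + 1) (x : ℂ)) := by
    linear_combination (-1 : ℂ) * hu
  have hfin := hc' z hz
  rw [hcc] at hfin
  rw [← sub_eq_add_neg, hE, hx] at hfin
  exact hfin

end H6V
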