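import Pool.Agent.Lib.H6V.Defs

/-!
# H6V, chunk X7 (M): `EE b K` on the real line: continuity, period, non-constancy

PROOF. On the real line the `n`-th term has norm `‖b n‖ / n^K` (for `n = 0`, `K ≥ 1` it is `0`): `EE_cont` by
`continuous_tsum`. `EE_period`: `e(n(z+m)) = e(nz)` (`Complex.exp_int_mul_two_pi_mul_I`, or compare `ev_period` in
Lib/H53M/X17.lean). `EE_noconst`: if `EE b K x = c` for all real `x`, then
`0 = c ∫_0^1 e(-x) dx = ∫_0^1 (Σ_n b(n) n^(-K) e(nx)) e(-x) dx = b 1`: `intervalIntegral.hasSum_integral_of_summable_norm`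
(or `hasSum_intervalIntegral_of_summable_norm`) exchanges sum and integral, `∫_0^1 e((n-1)x) dx = 0` for `n ≠ 1`, `= 1` for `n = 1`
(`integral_exp_mul_complex`). Alternatively use Mathlib's Fourier coefficients of a uniformly convergent series.
-/

namespace H6V

open H53M

private theorem X7_norm (b : ℕ → ℂ) (K n : ℕ) (x : ℝ) :
    ‖b n * ((n : ℂ) ^ K)⁻¹ * Complex.exp (2 * Real.pi * Complex.I * (n * (x : ℂ)))‖ =
      ‖b n‖ / (n : ℝ) ^ K := by
  have h1 : ‖Complex.exp (2 * Real.pi * Complex.I * (n * (x : ℂ)))‖ = 1 := by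
    rw [Complex.norm_exp]
    have : (2 * Real.pi * Complex.I * (n * (x : ℂ))).re = 0 := by
      simp [Complex.mul_re, Complex.mul_im]
    rw [this, Real.exp_zero]
  rw [norm_mul, norm_mul, h1, mul_one, norm_inv, norm_pow, Complex.norm_natCast, div_eq_mul_inv]

private theorem X7_contterm (b : ℕ → ℂ) (K n : ℕ) :
    Continuous fun x : ℝ =>
      b n * ((n : ℂ) ^ K)⁻¹ * Complex.exp (2 * Real.pi * Complex.I * (n * (x : ℂ))) := by
  fun_prop

theorem EE_cont (b : ℕ → ℂ) (K : ℕ) (hK : 1 ≤ K)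
    (hs : Summable fun n : ℕ => ‖b n‖ / (n : ℝ) ^ K) : Continuous fun x : ℝ => EE b K (x : ℂ) := by
  have _ := hK
  unfold EE
  exact continuous_tsum (fun n => X7_contterm b K n) hs fun n x => (X7_norm b K n x).le

theorem EE_period (b : ℕ → ℂ) (K : ℕ) (z : ℂ) (m : ℤ) : EE b K (z + m) = EE b K z := by
  unfold EE
  refine tsum_congr fun n => ?_
  have h : 2 * Real.pi * Complex.I * (n * (z + (m : ℂ))) =
      2 * Real.pi * Complex.I * (n * z) + (((n : ℤ) * m : ℤ) : ℂ) * (2 * Real.pi * Complex.I) := by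
    push_cast
    ring
  rw [h, Complex.exp_add, Complex.exp_int_mul_two_pi_mul_I, mul_one]

private theorem X7_int_zero (k : ℤ) (hk : k ≠ 0) :
    ∫ x in (0 : ℝ)..1, Complex.exp ((2 * Real.pi * Complex.I * (k : ℂ)) * (x : ℂ)) = 0 := by
  have hc : (2 * Real.pi * Complex.I * (k : ℂ)) ≠ 0 := by
    have h1 : (Real.pi : ℂ) ≠ 0 := Complex.ofReal_ne_zero.2 Real.pi_ne_zero
    have h2 : (k : ℂ) ≠ 0 := Int.cast_ne_zero.2 hk
    simp [h1, h2, Complex.I_ne_zero]
  rw [integral_exp_mul_complex hc]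
  have h3 : (2 * Real.pi * Complex.I * (k : ℂ)) * ((1 : ℝ) : ℂ) =
      (k : ℂ) * (2 * Real.pi * Complex.I) := by
    push_cast
    ring
  rw [h3, Complex.exp_int_mul_two_pi_mul_I]
  simp

private theorem X7_term (b : ℕ → ℂ) (K n : ℕ) :
    ∫ x in (0 : ℝ)..1, b n * ((n : ℂ) ^ K)⁻¹ *
        Complex.exp (2 * Real.pi * Complex.I * (n * (x : ℂ))) *
          Complex.exp ((2 * Real.pi * Complex.I * (((-1 : ℤ)) : ℂ)) * (x : ℂ)) =
      if n = 1 then b 1 else 0 := by
  have h : ∀ x : ℝ, b n * ((n : ℂ) ^ K)⁻¹ *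
        Complex.exp (2 * Real.pi * Complex.I * (n * (x : ℂ))) *
          Complex.exp ((2 * Real.pi * Complex.I * (((-1 : ℤ)) : ℂ)) * (x : ℂ)) =
      b n * ((n : ℂ) ^ K)⁻¹ *
        Complex.exp ((2 * Real.pi * Complex.I * (((n : ℤ) - 1 : ℤ) : ℂ)) * (x : ℂ)) := by
    intro x
    rw [mul_assoc, ← Complex.exp_add]
    congr 2
    push_cast
    ring
  simp_rw [h]
  rw [intervalIntegral.integral_const_mul]
  by_cases hn : n = 1
  · subst hn
    simp
  · rw [X7_int_zero _ (by omega), mul_zero, if_neg hn]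

theorem EE_noconst (b : ℕ → ℂ) (K : ℕ) (hK : 1 ≤ K)
    (hs : Summable fun n : ℕ => ‖b n‖ / (n : ℝ) ^ K) (h1 : b 1 ≠ 0) (c : ℂ) :
    ¬ ∀ x : ℝ, EE b K (x : ℂ) = c := by
  intro hc
  have _ := hK
  have hE : ∀ x : ℝ, ‖Complex.exp ((2 * Real.pi * Complex.I * (((-1 : ℤ)) : ℂ)) * (x : ℂ))‖ = 1 := by
    intro x
    rw [Complex.norm_exp]
    have : ((2 * Real.pi * Complex.I * (((-1 : ℤ)) : ℂ)) * (x : ℂ)).re = 0 := by
      simp [Complex.mul_re, Complex.mul_im]
    rw [this, Real.exp_zero]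
  have key : HasSum (fun n : ℕ => ∫ x in (0 : ℝ)..1, b n * ((n : ℂ) ^ K)⁻¹ *
        Complex.exp (2 * Real.pi * Complex.I * (n * (x : ℂ))) *
          Complex.exp ((2 * Real.pi * Complex.I * (((-1 : ℤ)) : ℂ)) * (x : ℂ)))
      (∫ x in (0 : ℝ)..1, c * Complex.exp ((2 * Real.pi * Complex.I * (((-1 : ℤ)) : ℂ)) * (x : ℂ))) := by
    refine intervalIntegral.hasSum_integral_of_dominated_convergence
      (fun n _ => ‖b n‖ / (n : ℝ) ^ K) ?_ ?_ ?_ ?_ ?_
    · intro n
      refine Continuous.aestronglyMeasurable ?_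
      fun_prop
    · intro n
      refine Filter.Eventually.of_forall fun x _ => ?_
      rw [norm_mul, X7_norm, hE, mul_one]
    · exact Filter.Eventually.of_forall fun x _ => hs
    · exact intervalIntegrable_const
    · refine Filter.Eventually.of_forall fun x _ => ?_
      have hsum : Summable fun n : ℕ => b n * ((n : ℂ) ^ K)⁻¹ *
          Complex.exp (2 * Real.pi * Complex.I * (n * (x : ℂ))) := by
        refine Summable.of_norm ?_
        simp_rw [X7_norm]
        exact hs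
      have h2 := hsum.hasSum
      have h3 : (∑' n : ℕ, b n * ((n : ℂ) ^ K)⁻¹ *
          Complex.exp (2 * Real.pi * Complex.I * (n * (x : ℂ)))) = c := hc x
      rw [h3] at h2
      exact h2.mul_right _
  simp_rw [X7_term] at key
  rw [intervalIntegral.integral_const_mul, X7_int_zero (-1) (by decide), mul_zero] at key
  have h4 : HasSum (fun n : ℕ => if n = 1 then b 1 else 0) (b 1) := hasSum_ite_eq 1 (b 1)
  exact h1 (h4.unique key)

end H6V
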