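import Pool.Agent.Lib.H94M.TG
import Pool.Agent.Lib.H53N.S

/-!
# H6V, chunk S1 (M): Theorem S for the square of a series, exceptional primes `o(X/log X)`

PROOF. Merge of `H94M.rel_gen` (Lib/H94M/TG.lean, with `d = 1`, `B = 1`) and `H53N.rel_sparse_sq` (Lib/H53N/S.lean):
apply `H94M.thmS_fam v (2 * A) _ (h ^ 2) (C ^ 2) (2 * κ + 1) (sq_growth h C κ hC) (fun n => DG E 1 1 n ^ 2) ..` with
`sq_den`, `log_DG_small E 1 1` for `ε/2` (`log (D²) = 2 log D`), `GG_theta E R p₀ 1`, and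
`redQ p (h^2) = (redQ p h)^2 ∈ M (2 v + (p-1)(2 A))` exactly as at the end of `rel_sparse_sq`.
(`X^(1/1) = X`: `Real.rpow_one`.)
-/

open Finset

namespace H6V

open PowerSeries H53M H94M H53N

theorem rel_sq (v A : ℕ) (hA : 1 ≤ A) (h : PowerSeries ℚ)
    (C : ℝ) (κ : ℕ) (hC : ∀ n, |((coeff n h : ℚ) : ℝ)| ≤ C * ((n : ℝ) + 1) ^ κ)
    (E : ℕ → Prop)
    (hE : ∀ ε : ℝ, 0 < ε → ∃ X₀ : ℕ, ∀ X ≥ X₀,
      (Set.ncard {p : ℕ | p ≤ X ∧ p.Prime ∧ E p} : ℝ) * Real.log X ≤ ε * (X : ℝ))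
    (hden : ∀ n p : ℕ, p.Prime → p ^ padicValNat p (coeff n h).den ≤ n + 1)
    (hint : ∀ p : ℕ, p.Prime → ¬ E p → ∀ n, ¬ p ∣ (coeff n h).den)
    (R : ℕ → Prop) (c0 : ℝ) (hc0 : 0 < c0)
    (hR : ∃ X₀ : ℕ, ∀ X ≥ X₀, c0 * (X : ℝ) ≤
      ∑ᶠ p ∈ {p : ℕ | p ≤ X ∧ p.Prime ∧ R p}, Real.log p)
    (p₀ μ s : ℕ) (hμ : 1 ≤ μ)
    (hr : ∀ p [Fact p.Prime], 3 < p → p₀ < p → R p → ¬ E p →
      ∃ M : ℕ → Submodule (ZMod p) (PowerSeries (ZMod p)),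
        MFam p μ s M ∧ redQ p h ∈ M (v + (p - 1) * A)) :
    Rel v (h ^ 2) := by
  classical
  have hset : ∀ (Q : ℕ → Prop) (X : ℕ), {p : ℕ | p ≤ X ∧ p.Prime ∧ Q p} =
      (((range (X + 1)).filter (fun p => p.Prime ∧ Q p) : Finset ℕ) : Set ℕ) := by
    intro Q X
    ext p
    simp only [Set.mem_ofPred_eq, coe_filter, mem_range]
    constructor
    · rintro ⟨a, b⟩
      exact ⟨by omega, b⟩
    · rintro ⟨a, b⟩
      exact ⟨by omega, b⟩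
  have hE' : ∀ ε : ℝ, 0 < ε → ∃ X₀ : ℕ, ∀ X ≥ X₀,
      (((range (X + 1)).filter (fun p => p.Prime ∧ E p)).card : ℝ) * Real.log X ≤
        ε * (X : ℝ) ^ (1 / ((1 : ℕ) : ℝ)) := by
    intro ε hε
    obtain ⟨X₀, h⟩ := hE ε hε
    refine ⟨X₀, fun X hX => ?_⟩
    have h1 := h X hX
    rw [hset E X, Set.ncard_coe_finset] at h1
    rw [Nat.cast_one, div_one, Real.rpow_one]
    exact h1
  have hR' : ∃ X₀ : ℕ, ∀ X ≥ X₀, c0 * (X : ℝ) ≤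
      ∑ p ∈ (range (X + 1)).filter (fun p => p.Prime ∧ R p), Real.log p := by
    obtain ⟨X₀, h⟩ := hR
    refine ⟨X₀, fun X hX => ?_⟩
    have h1 := h X hX
    rw [hset R X, finsum_mem_coe_finset] at h1
    exact h1
  have hden' : ∀ n p : ℕ, p.Prime → p ^ padicValNat p (coeff n h).den ≤ 1 * (n + 1) ^ 1 := by
    intro n p hp
    rw [one_mul, pow_one]
    exact hden n p hp
  have hsmall : ∀ ε : ℝ, 0 < ε → ∃ N₀ : ℕ, ∀ n ≥ N₀,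
      Real.log ((DG E 1 1 n ^ 2 : ℕ) : ℝ) ≤ ε * n := by
    intro ε hε
    obtain ⟨N₀, hN⟩ := log_DG_small E 1 1 le_rfl le_rfl hE' (ε / 2) (by positivity)
    refine ⟨N₀, fun n hn => ?_⟩
    have h1 := hN n hn
    push_cast
    rw [Real.log_pow]
    push_cast
    linarith
  refine thmS_fam v (2 * A) (by omega) (h ^ 2) (C ^ 2) (2 * κ + 1) (sq_growth h C κ hC)
    (fun n => DG E 1 1 n ^ 2) (fun n => Nat.pow_pos (DG_pos E 1 1 n))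
    (fun n => pow_dvd_pow_of_dvd (DG_dvd E 1 1 n) 2)
    (sq_den E 1 1 h fun n => DG_den E 1 1 n _ (hden' n) (fun p hp hEp => hint p hp hEp n))
    hsmall (GG E R p₀) (fun p hp => ⟨hp.1, hp.2.1⟩)
    (c0 / 2) (by positivity) (GG_theta E R p₀ 1 le_rfl hE' c0 hc0 hR') ?_ μ s hμ ?_
  · intro p hp
    have : Fact p.Prime := ⟨hp.1⟩
    have h1 : PI p h := hint p hp.1 hp.2.2.2.2
    exact PI_pow h1 2
  · intro p _ hp
    obtain ⟨M, hM, hMh⟩ := hr p hp.2.1 hp.2.2.1 hp.2.2.2.1 hp.2.2.2.2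
    refine ⟨M, hM, ?_⟩
    have h1 : PI p h := hint p hp.1 hp.2.2.2.2
    have h2 := hM.mul _ _ _ _ hMh hMh
    rw [kredQ_pow h1, pow_two]
    have e : 2 * v + (p - 1) * (2 * A) = v + (p - 1) * A + (v + (p - 1) * A) := by ring
    rw [e]
    exact h2

end H6V
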