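import Mathlib

/-!
# H6V, chunk X5 (M), PURE MATHLIB: elimination

Variant of `H53M.X.elim` (Lib/H53M/X8.lean), with two infinite sets instead of sequences.

PROOF. (1) `R = Σ b_t (e₀ + c₁ X)^(6i) ((P(X) + κ X^r Y)^2)^(6j) ∈ ℂ[Y][X]` as in the proof of `elim`
(`Polynomial (Polynomial ℂ)`, `hev` gives `(R.eval (C x)).eval y`). For `y ∈ Y` the polynomial
`R.map (Polynomial.evalRingHom y) ∈ ℂ[X]` has infinitely many roots, so it is `0`; so for each `n` the coefficient
`R.coeff n ∈ ℂ[Y]` vanishes at all `y ∈ Y`, infinitely many, so it is `0`. So `R = 0`.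
(2), (3): as in `elim`, with `z₂^(12 j)` in place of `z₂^(6 j)`.
-/

namespace H6V

theorem elim3 (S : Finset (ℕ × ℕ × ℕ)) (b : ℕ × ℕ × ℕ → ℂ) (e₀ c₁ κ : ℂ) (hc₁ : c₁ ≠ 0)
    (hκ : κ ≠ 0) (P : Polynomial ℂ) (r : ℕ) (Y : Set ℂ) (hY : Y.Infinite)
    (h : ∀ y ∈ Y, {x : ℂ | ∑ t ∈ S, b t * (e₀ + c₁ * x) ^ (6 * t.1) *
      ((P.eval x + κ * x ^ r * y) ^ 2) ^ (6 * t.2.1) = 0}.Infinite) (i j : ℕ) :
    ∑ t ∈ S.filter (fun t => t.1 = i ∧ t.2.1 = j), b t = 0 := by
  classical
  set R : Polynomial (Polynomial ℂ) := ∑ t ∈ S, Polynomial.C (Polynomial.C (b t)) *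
    (Polynomial.C (Polynomial.C e₀) + Polynomial.C (Polynomial.C c₁) * Polynomial.X) ^ (6 * t.1) *
    ((P.map Polynomial.C + Polynomial.C (Polynomial.C κ) * Polynomial.X ^ r *
      Polynomial.C Polynomial.X) ^ 2) ^ (6 * t.2.1) with hR
  have hev : ∀ a c : ℂ, (R.eval (Polynomial.C a)).eval c = ∑ t ∈ S, b t *
      (e₀ + c₁ * a) ^ (6 * t.1) * ((P.eval a + κ * a ^ r * c) ^ 2) ^ (6 * t.2.1) := by
    intro a c
    have hP : (P.map Polynomial.C).eval (Polynomial.C a) = Polynomial.C (P.eval a) := by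
      rw [Polynomial.eval_map, Polynomial.eval₂_at_apply]
    rw [hR]
    simp only [Polynomial.eval_finsetSum, Polynomial.eval_mul, Polynomial.eval_pow,
      Polynomial.eval_add, Polynomial.eval_C, Polynomial.eval_X, hP]
  have hmap : ∀ a c : ℂ, (R.map (Polynomial.evalRingHom c)).eval a =
      (R.eval (Polynomial.C a)).eval c := by
    intro a c
    have h1 := Polynomial.eval₂_at_apply (p := R) (Polynomial.evalRingHom c) (Polynomial.C a)
    rw [Polynomial.eval_map]
    have h2 : (Polynomial.evalRingHom c) (Polynomial.C a) = a := by simp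
    rw [h2] at h1
    rw [h1]
    simp
  have hR0 : R = 0 := by
    have hy0 : ∀ y ∈ Y, R.map (Polynomial.evalRingHom y) = 0 := by
      intro y hy
      refine Polynomial.eq_zero_of_infinite_isRoot _ ((h y hy).mono ?_)
      intro x hx
      change (R.map (Polynomial.evalRingHom y)).eval x = 0
      rw [hmap, hev]
      exact hx
    ext1 n
    rw [Polynomial.coeff_zero]
    refine Polynomial.eq_zero_of_infinite_isRoot _ (hY.mono ?_)
    intro y hy
    change (R.coeff n).eval y = 0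
    have h1 := congrArg (fun p : Polynomial ℂ => p.coeff n) (hy0 y hy)
    simp only [Polynomial.coeff_map, Polynomial.coeff_zero, Polynomial.coe_evalRingHom] at h1
    exact h1
  have h2 : ∀ z₁ z₂ : ℂ, z₁ ≠ e₀ → ∑ t ∈ S, b t * z₁ ^ (6 * t.1) * z₂ ^ (12 * t.2.1) = 0 := by
    intro z₁ z₂ hz
    have ha : (z₁ - e₀) / c₁ ≠ 0 := div_ne_zero (sub_ne_zero.2 hz) hc₁
    have h3 := hev ((z₁ - e₀) / c₁)
      ((z₂ - P.eval ((z₁ - e₀) / c₁)) / (κ * ((z₁ - e₀) / c₁) ^ r))
    rw [hR0, Polynomial.eval_zero, Polynomial.eval_zero] at h3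
    rw [h3]
    refine Finset.sum_congr rfl fun t _ => ?_
    have h4 : e₀ + c₁ * ((z₁ - e₀) / c₁) = z₁ := by
      rw [mul_div_cancel₀ _ hc₁]
      ring
    have h5 : P.eval ((z₁ - e₀) / c₁) + κ * ((z₁ - e₀) / c₁) ^ r *
        ((z₂ - P.eval ((z₁ - e₀) / c₁)) / (κ * ((z₁ - e₀) / c₁) ^ r)) = z₂ := by
      rw [mul_div_cancel₀ _ (mul_ne_zero hκ (pow_ne_zero r ha))]
      ring
    rw [h4, h5, ← pow_mul, show 2 * (6 * t.2.1) = 12 * t.2.1 by ring]
  have h6 : ∀ z₁ : ℂ, z₁ ≠ e₀ → ∑ t ∈ S.filter (fun t => t.2.1 = j), b t * z₁ ^ (6 * t.1) = 0 := by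
    intro z₁ hz
    have h7 : (∑ t ∈ S, Polynomial.C (b t * z₁ ^ (6 * t.1)) * Polynomial.X ^ (12 * t.2.1) :
        Polynomial ℂ) = 0 := by
      refine Polynomial.funext fun z₂ => ?_
      simp only [Polynomial.eval_finsetSum, Polynomial.eval_mul, Polynomial.eval_pow,
        Polynomial.eval_C, Polynomial.eval_X, Polynomial.eval_zero]
      exact h2 z₁ z₂ hz
    have h8 := congrArg (fun p : Polynomial ℂ => p.coeff (12 * j)) h7
    simp only [Polynomial.finsetSum_coeff, Polynomial.coeff_C_mul, Polynomial.coeff_X_pow,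
      Polynomial.coeff_zero] at h8
    rw [Finset.sum_filter]
    refine Eq.trans (Finset.sum_congr rfl fun t _ => ?_) h8
    by_cases htj : t.2.1 = j
    · rw [if_pos htj, if_pos (by rw [htj]), mul_one]
    · rw [if_neg htj, if_neg (by omega), mul_zero]
  have h9 : (∑ t ∈ S.filter (fun t => t.2.1 = j), Polynomial.C (b t) *
      Polynomial.X ^ (6 * t.1) : Polynomial ℂ) = 0 := by
    have h10 : ((Polynomial.X - Polynomial.C e₀) * ∑ t ∈ S.filter (fun t => t.2.1 = j),
        Polynomial.C (b t) * Polynomial.X ^ (6 * t.1) : Polynomial ℂ) = 0 := by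
      refine Polynomial.funext fun z => ?_
      rw [Polynomial.eval_mul, Polynomial.eval_zero]
      by_cases hz : z = e₀
      · rw [hz, Polynomial.eval_sub, Polynomial.eval_X, Polynomial.eval_C, sub_self, zero_mul]
      · have h11 := h6 z hz
        simp only [Polynomial.eval_finsetSum, Polynomial.eval_mul, Polynomial.eval_pow,
          Polynomial.eval_C, Polynomial.eval_X]
        rw [h11, mul_zero]
    exact (mul_eq_zero.1 h10).resolve_left (Polynomial.X_sub_C_ne_zero e₀)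
  have h12 := congrArg (fun p : Polynomial ℂ => p.coeff (6 * i)) h9
  simp only [Polynomial.finsetSum_coeff, Polynomial.coeff_C_mul, Polynomial.coeff_X_pow,
    Polynomial.coeff_zero] at h12
  rw [Finset.sum_filter] at h12 ⊢
  refine Eq.trans (Finset.sum_congr rfl fun t _ => ?_) h12
  by_cases htj : t.2.1 = j
  · by_cases hti : t.1 = i
    · rw [if_pos ⟨hti, htj⟩, if_pos htj, if_pos (by rw [hti]), mul_one]
    · rw [if_neg (fun h => hti h.1), if_pos htj, if_neg (by omega), mul_zero]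
  · rw [if_neg (fun h => htj h.2), if_neg htj]

end H6V
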