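import Pool.Agent.Lib.H6V.X6
import Pool.Agent.Lib.H6V.X7

/-!
# H6V, chunk X8 (S/M): infinitely many values

PROOF. Suppose the set `V` of values is finite. `g x = EE b (k-1) x`, `b n = (a n : ℂ)`, is continuous on `ℝ` (`EE_cont`, `hF.sum`), maps the dense
set of `dense_fr` into the closed set `V`, so it maps `ℝ` into `V` (`Dense.induction`/`IsClosed.closure_subset_iff`,
`hV.isClosed`). The image of `ℝ` is preconnected and finite, so it is a subsingleton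
(`Set.Finite.isTotallyDisconnected`? or: `IsPreconnected.subsingleton` for a finite set with the discrete topology; or
`IsPreconnected.constant_of_mapsTo`), so `g` is constant, contradicting `EE_noconst` (`b 1 ≠ 0` by `hF.ne`).
-/

namespace H6V

open H53M

theorem EE_values {N k : ℕ} (hN : N ≠ 0) (hk : 2 ≤ k) {a : ℕ → ℤ} (hF : Frm N k a) :
    {y : ℂ | ∃ A B C D : ℤ, A * D - B * C = 1 ∧ (N : ℤ) ∣ C ∧ (N : ℤ) ∣ D - 1 ∧ 0 < C ∧
      y = EE (fun n => (a n : ℂ)) (k - 1) ((-(D : ℝ) / (C : ℝ) : ℝ) : ℂ)}.Infinite := by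
  intro hV
  have hk1 : 1 ≤ k - 1 := by omega
  have hs : Summable fun n : ℕ => ‖((a n : ℤ) : ℂ)‖ / (n : ℝ) ^ (k - 1) := by
    have := hF.sum
    refine this.congr fun n => ?_
    rw [Complex.norm_intCast]
  have hc := EE_cont (fun n => (a n : ℂ)) (k - 1) hk1 hs
  have hcl : IsClosed ((fun x : ℝ => EE (fun n => (a n : ℂ)) (k - 1) (x : ℂ)) ⁻¹'
      {y : ℂ | ∃ A B C D : ℤ, A * D - B * C = 1 ∧ (N : ℤ) ∣ C ∧ (N : ℤ) ∣ D - 1 ∧ 0 < C ∧
        y = EE (fun n => (a n : ℂ)) (k - 1) ((-(D : ℝ) / (C : ℝ) : ℝ) : ℂ)}) :=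
    hV.isClosed.preimage hc
  have hall : ∀ x : ℝ, EE (fun n => (a n : ℂ)) (k - 1) (x : ℂ) ∈
      {y : ℂ | ∃ A B C D : ℤ, A * D - B * C = 1 ∧ (N : ℤ) ∣ C ∧ (N : ℤ) ∣ D - 1 ∧ 0 < C ∧
        y = EE (fun n => (a n : ℂ)) (k - 1) ((-(D : ℝ) / (C : ℝ) : ℝ) : ℂ)} := by
    intro x
    have hx : x ∈ closure {x : ℝ | ∃ A B C D : ℤ, A * D - B * C = 1 ∧ (N : ℤ) ∣ C ∧
        (N : ℤ) ∣ D - 1 ∧ 0 < C ∧ x = -(D : ℝ) / (C : ℝ)} := (dense_fr N hN) x
    refine (hcl.closure_subset_iff.mpr ?_) hx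
    rintro y ⟨A, B, C, D, h1, h2, h3, h4, h5⟩
    exact ⟨A, B, C, D, h1, h2, h3, h4, by rw [h5]⟩
  refine EE_noconst (fun n => (a n : ℂ)) (k - 1) hk1 hs (by exact_mod_cast hF.ne)
    (EE (fun n => (a n : ℂ)) (k - 1) ((0 : ℝ) : ℂ)) fun x => ?_
  exact isPreconnected_univ.constant_of_mapsTo hV.isDiscrete hc.continuousOn (fun x _ => hall x)
    (Set.mem_univ x) (Set.mem_univ 0)

end H6V
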