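import Pool.Agent.Lib.H6V.X3B
import Pool.Agent.Lib.H6V.X4
import Pool.Agent.Lib.H6V.X5
import Pool.Agent.Lib.H6V.X8
import Pool.Agent.Lib.H53M.X9
import Pool.Agent.Lib.H53M.X17
import Pool.Agent.Lib.H53M.X18

/-!
# H6V, chunk X9 (M/L): `(θ⁻¹ f)²` satisfies no isobaric relation with `E₂, E₄, Δ`

PROOF. As `not_relN` in Lib/H94M/XNFin.lean (template). Let `⟨W, S, g, hS, ⟨t₀, ht₀, hg₀⟩, h0⟩ : Rel (k-2) (hq a ^ 2)`. By
`triang W (k-2) S g hS ..` (Lib/H53M/X9.lean) with `dl_tendsto, dl_ne, e4_tendsto` (X17) it suffices: for every `y > 0`, `w = I y` and all `i, j`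
the sum over `t ∈ S`, `t.1 = i`, `t.2.1 = j`, of `g_t Δ(w)^l E₄(w)^(3(W-i-(k-2)j-l))` vanishes. This is `elim3` with
`b s = (g s : ℂ) * (ev (ktoC (toQ dl)) w ^ s.2.2 * ev (ktoC (toQ e4)) w ^ (3 * (W - s.1 - (k-2) * s.2.1 - s.2.2)))`,
`e₀ = ev (ktoC (toQ e2)) w`, `c₁ = 12/(2πi)`, `κ = - al k (k-2)` (`≠ 0`), `r = k - 2`,
`P = Σ_{j < k-1} C (al k j * EE a (j+1) w) X^j`, `Y` = the set of `EE_values`.
For `y₀ ∈ Y` with `A, B, C, D` take for each `n : ℤ` the matrix with `D' = D + n C`, `B' = B + n A` (`A D' - B' C = 1`,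
`N ∣ D' - 1`), `x_n = C/(C w + D') `: these are pairwise different (`Set.infinite_of_injective_forall_mem`, `C ≠ 0`), and each
is in the set: with `t = C w + D' ≠ 0`, `x = C/t`: `EE_trans` gives
`h(γw) = t^(k-2) (P(x) + κ x^(k-2) y₀)` where `EE a (k-1) (-D'/C) = EE a (k-1) (-D/C - n) = y₀` (`EE_period`), `C^j t^(k-2-j) = t^(k-2) x^j`;
`e2_mob`, `e4_mob`, `dl_mob` give the others; `rel_eval` (X18, for `h = hq a ^ 2`, `Cv`: `Cv_pow (hq_Cv hF) 2`; the `ktoC` of a square is the square,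
`ev_pow`; `EE_one`) at `γw` (`mob_im_pos`) and division by `t^(12 W) ≠ 0` give the equation
`Σ_s b s (e₀ + c₁ x)^(6 s.1) ((P(x) + κ x^(k-2) y₀)^2)^(6 s.2.1) = 0`; the exponents of `t`:
`12 l + 4·3(W-i-(k-2)j-l) + 2·6i + 2(k-2)·6j = 12 W`.
-/

namespace H6V

open H53M H94M H53M.X Filter Topology

private theorem X9_al_ne (k : ℕ) : al k (k - 2) ≠ 0 := by
  unfold al
  refine mul_ne_zero (mul_ne_zero (pow_ne_zero _ (by norm_num)) ?_)
    (inv_ne_zero (pow_ne_zero _ Complex.two_pi_I_ne_zero))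
  rw [Nat.descFactorial_self]
  exact_mod_cast Nat.factorial_ne_zero _

/-- the transformation law in the form used for the elimination -/
private theorem X9_trans {N k : ℕ} (hk : 4 ≤ k) {a : ℕ → ℤ} (hF : Frm N k a) {A B C D : ℤ}
    (hdet : A * D - B * C = 1) (hNC : (N : ℤ) ∣ C) (hND : (N : ℤ) ∣ D - 1) (hC : 0 < C) {w : ℂ}
    (hw : 0 < w.im) :
    ev (ktoC (hq a)) ((A * w + B) / (C * w + D)) =
      (C * w + D) ^ (k - 2) *
        ((∑ j ∈ Finset.range (k - 1), Polynomial.C (al k j * EE (fun n => (a n : ℂ)) (j + 1) w) *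
          Polynomial.X ^ j).eval ((C : ℂ) / (C * w + D)) +
        -al k (k - 2) * ((C : ℂ) / (C * w + D)) ^ (k - 2) *
          EE (fun n => (a n : ℂ)) (k - 1) ((-(D : ℝ) / (C : ℝ) : ℝ) : ℂ)) := by
  rw [← EE_one, EE_trans (by omega) hF hdet hNC hND hC hw, Polynomial.eval_finsetSum]
  have ht : (C : ℂ) * w + D ≠ 0 := den_ne hdet hw
  generalize (C : ℂ) * w + D = t at ht
  rw [mul_add, Finset.mul_sum, sub_eq_add_neg]
  congr 1
  · refine Finset.sum_congr rfl fun j hj => ?_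
    have hj' : j ≤ k - 2 := by
      have := Finset.mem_range.mp hj
      omega
    rw [Polynomial.eval_mul, Polynomial.eval_C, Polynomial.eval_pow, Polynomial.eval_X, div_pow]
    have e2 : t ^ (k - 2) = t ^ (k - 2 - j) * t ^ j := by
      rw [← pow_add]
      congr 1
      omega
    rw [e2]
    have htj : t ^ j ≠ 0 := pow_ne_zero _ ht
    field_simp
  · rw [div_pow]
    have htj : t ^ (k - 2) ≠ 0 := pow_ne_zero _ ht
    field_simp

theorem not_rel {N k : ℕ} (hN : N ≠ 0) (hk : 4 ≤ k) {a : ℕ → ℤ} (hF : Frm N k a) :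
    ¬ Rel (k - 2) (hq a ^ 2) := by
  rintro ⟨W, S, g, hS, ⟨t₀, ht₀, hg₀⟩, h0⟩
  refine hg₀ (triang W (k - 2) S g hS (fun y => ev (ktoC (toQ dl)) (Complex.I * (y : ℂ)))
    (fun y => ev (ktoC (toQ e4)) (Complex.I * (y : ℂ))) dl_tendsto dl_ne e4_tendsto ?_ t₀ ht₀)
  filter_upwards [eventually_gt_atTop (0 : ℝ)] with y hy0
  intro i j
  set w : ℂ := Complex.I * (y : ℂ) with hwdef
  have hw : 0 < w.im := by
    rw [hwdef]
    simpa using hy0
  refine elim3 S (fun s => (g s : ℂ) * (ev (ktoC (toQ dl)) w ^ s.2.2 *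
      ev (ktoC (toQ e4)) w ^ (3 * (W - s.1 - (k - 2) * s.2.1 - s.2.2))))
    (ev (ktoC (toQ e2)) w) (12 / (2 * Real.pi * Complex.I)) (-al k (k - 2))
    (div_ne_zero (by norm_num) Complex.two_pi_I_ne_zero) (neg_ne_zero.2 (X9_al_ne k))
    (∑ j ∈ Finset.range (k - 1), Polynomial.C (al k j * EE (fun n => (a n : ℂ)) (j + 1) w) *
      Polynomial.X ^ j) (k - 2) _ (EE_values hN (by omega) hF) ?_ i j
  rintro y₀ ⟨A, B, C, D, hdet, hNC, hND, hC, rfl⟩
  have hCC : (C : ℂ) ≠ 0 := by exact_mod_cast hC.ne'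
  have hdet' : ∀ n : ℤ, A * (D + n * C) - (B + n * A) * C = 1 := fun n => by
    rw [← hdet]
    ring
  have hden : ∀ n : ℤ, (C : ℂ) * w + ((D + n * C : ℤ) : ℂ) ≠ 0 := fun n => den_ne (hdet' n) hw
  refine Set.infinite_of_injective_forall_mem
    (f := fun n : ℤ => (C : ℂ) / ((C : ℂ) * w + ((D + n * C : ℤ) : ℂ))) ?_ ?_
  · intro n m hnm
    have h1 : (C : ℂ) / ((C : ℂ) * w + ((D + n * C : ℤ) : ℂ)) =
        (C : ℂ) / ((C : ℂ) * w + ((D + m * C : ℤ) : ℂ)) := hnm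
    rw [div_eq_div_iff (hden n) (hden m)] at h1
    have h2 := mul_left_cancel₀ hCC h1
    have h3 : ((D + m * C : ℤ) : ℂ) = ((D + n * C : ℤ) : ℂ) := add_left_cancel h2
    have h4 : D + m * C = D + n * C := by exact_mod_cast h3
    have h5 : m * C = n * C := by linarith
    exact (mul_right_cancel₀ hC.ne' h5).symm
  · intro n
    have hND' : (N : ℤ) ∣ (D + n * C) - 1 := by
      have h1 : (D + n * C) - 1 = (D - 1) + n * C := by ring
      rw [h1]
      exact dvd_add hND (dvd_mul_of_dvd_right hNC n)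
    have hgam := mob_im_pos (hdet' n) hw
    have hcv := hq_Cv hF
    have hcv2 : Cv (ktoC (hq a ^ 2)) := by
      rw [map_pow]
      exact Cv_pow hcv 2
    have hr := rel_eval hcv2 h0 hgam
    have hh := X9_trans hk hF (hdet' n) hNC hND' hC hw
    have hper : EE (fun n => (a n : ℂ)) (k - 1)
        ((-((D + n * C : ℤ) : ℝ) / (C : ℝ) : ℝ) : ℂ) =
        EE (fun n => (a n : ℂ)) (k - 1) ((-(D : ℝ) / (C : ℝ) : ℝ) : ℂ) := by
      rw [← EE_period (fun n => (a n : ℂ)) (k - 1)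
        ((-((D + n * C : ℤ) : ℝ) / (C : ℝ) : ℝ) : ℂ) n]
      congr 1
      push_cast
      field_simp
      ring
    rw [hper] at hh
    have hev2 : ∀ z : ℂ, 0 < z.im → ev (ktoC (hq a ^ 2)) z = ev (ktoC (hq a)) z ^ 2 := by
      intro z hz
      rw [map_pow, ev_pow hcv 2 hz]
    simp only [dl_mob (hdet' n) hw, e4_mob (hdet' n) hw, e2_mob (hdet' n) hw,
      hev2 _ hgam, hh] at hr
    show ∑ s ∈ S, _ = (0 : ℂ)
    have ht := hden n
    have hW : ((C : ℂ) * w + ((D + n * C : ℤ) : ℂ)) ^ (12 * W) ≠ 0 := pow_ne_zero _ ht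
    apply mul_left_cancel₀ hW
    rw [mul_zero, ← hr, Finset.mul_sum]
    refine Finset.sum_congr rfl fun s hsS => ?_
    have hle := hS s hsS
    generalize (∑ j ∈ Finset.range (k - 1), Polynomial.C (al k j *
      EE (fun n => (a n : ℂ)) (j + 1) w) * Polynomial.X ^ j).eval
        ((C : ℂ) / ((C : ℂ) * w + ((D + n * C : ℤ) : ℂ))) = A0
    generalize EE (fun n => (a n : ℂ)) (k - 1) ((-(D : ℝ) / (C : ℝ) : ℝ) : ℂ) = A5
    generalize ev (ktoC (toQ e2)) w = A2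
    generalize ev (ktoC (toQ dl)) w = A3
    generalize ev (ktoC (toQ e4)) w = A4
    generalize -al k (k - 2) = A6
    generalize (C : ℂ) * w + ((D + n * C : ℤ) : ℂ) = t
    generalize (C : ℂ) / t = x
    generalize (12 : ℂ) / (2 * Real.pi * Complex.I) = A7
    generalize A0 + A6 * x ^ (k - 2) * A5 = A8
    generalize A2 + A7 * x = A9
    rw [mul_pow (t ^ (k - 2)) A8 2, mul_pow ((t ^ (k - 2)) ^ 2) (A8 ^ 2) (6 * s.2.1),
      mul_pow (t ^ 12), mul_pow (t ^ 4), mul_pow (t ^ 2), ← pow_mul t (k - 2) 2,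
      ← pow_mul t ((k - 2) * 2), ← pow_mul t 12, ← pow_mul t 4, ← pow_mul t 2]
    have e : 12 * W = 12 * s.2.2 + 4 * (3 * (W - s.1 - (k - 2) * s.2.1 - s.2.2)) +
        2 * (6 * s.1) + (k - 2) * 2 * (6 * s.2.1) := by
      generalize hq : (k - 2) * s.2.1 = q at *
      have : (k - 2) * 2 * (6 * s.2.1) = 12 * q := by rw [← hq]; ring
      rw [this]
      omega
    rw [e, pow_add, pow_add, pow_add]
    ring

end H6V
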