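import Pool.Agent.Lib.H6V.K2
import Pool.Agent.Lib.H6V.S1
import Pool.Agent.Lib.H6V.X9

/-!
# H6V, chunk C1 (M): the core theorem

PROOF. `not_rel` contradicts `rel_sq (k-2) (k-1) _ (hq a) ..` with
* growth: `|a n / n| ≤ |a n| ≤ C (n+1)^K` (`hF.growth`; `n = 0`: `x / 0 = 0`, the constant is `≥ 0`);
* `hden`: the denominator of `a n / n` divides `n` (`Rat.den_dvd`, cf. `hs_term_pi` in Lib/H36H/KF.lean), so for `n ≥ 1` the power `p^v` divides `n`, is at most `n`;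
  for `n = 0` the denominator is `1`;
* `hint`: for `p` not in `E`, `n ≥ 1`, `n = p^r m` with `p ∤ m`, `p^r ∣ a n`, so `a n / n = b / m` and `p` does not divide the denominator
  (which divides `m`);
* `hr`: `⟨fun w => MN1 N p w, mfam_MN1 N p, hq_MN1 ..⟩`, `μ = 12 * (mu1 N + 1)`, `s = 0`, `p₀ = 5` (Lib/H53N/Q.lean);
  the weight is `(k - 2) + (p - 1) * (k - 1)`.
-/

namespace H6V

open H53M H94M H53N PowerSeries

private theorem C1_den_dvd (a : ℕ → ℤ) (n : ℕ) : ((a n : ℚ) / (n : ℚ)).den ∣ n ∨ n = 0 := by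
  rcases Nat.eq_zero_or_pos n with h | h
  · exact Or.inr h
  · left
    have h4 := Rat.den_dvd (a n) (n : ℤ)
    rw [Rat.divInt_eq_div] at h4
    push_cast at h4
    exact_mod_cast h4

private theorem C1_coeff (a : ℕ → ℤ) (n : ℕ) : coeff n (hq a) = (a n : ℚ) / (n : ℚ) := by
  unfold hq
  rw [coeff_mk]

private theorem C1_growth {a : ℕ → ℤ} {C : ℝ} {K : ℕ}
    (h : ∀ n, |(a n : ℝ)| ≤ C * ((n : ℝ) + 1) ^ K) (n : ℕ) :
    |((coeff n (hq a) : ℚ) : ℝ)| ≤ C * ((n : ℝ) + 1) ^ K := by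
  rw [C1_coeff]
  push_cast
  rcases Nat.eq_zero_or_pos n with h0 | h0
  · subst h0
    have h1 := h 0
    have h2 : (0 : ℝ) ≤ |(a 0 : ℝ)| := abs_nonneg _
    simp only [Nat.cast_zero, div_zero, abs_zero]
    simp only [Nat.cast_zero] at h1
    linarith
  · refine le_trans ?_ (h n)
    rw [abs_div]
    refine div_le_self (abs_nonneg _) ?_
    have h1 : (1 : ℝ) ≤ (n : ℝ) := by exact_mod_cast h0
    rw [abs_of_nonneg (by linarith)]
    exact h1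

private theorem C1_hden (a : ℕ → ℤ) (n p : ℕ) (_hp : p.Prime) :
    p ^ padicValNat p (coeff n (hq a)).den ≤ n + 1 := by
  rw [C1_coeff]
  rcases C1_den_dvd a n with h | h
  · rcases Nat.eq_zero_or_pos n with h0 | h0
    · subst h0
      simp
    · exact (Nat.le_of_dvd h0 (pow_padicValNat_dvd.trans h)).trans (Nat.le_succ n)
  · subst h
    simp

private theorem C1_hint (a : ℕ → ℤ) (p : ℕ) (hp : p.Prime)
    (h1 : ∀ n r : ℕ, p ^ r ∣ n → (p : ℤ) ^ r ∣ a n) (n : ℕ) :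
    ¬ p ∣ (coeff n (hq a)).den := by
  rw [C1_coeff]
  rcases Nat.eq_zero_or_pos n with h0 | h0
  · subst h0
    simp only [Nat.cast_zero, div_zero]
    intro h
    exact hp.one_lt.ne' (Nat.dvd_one.1 h)
  · obtain ⟨r, m, hm, hn⟩ := Nat.exists_eq_pow_mul_and_not_dvd h0.ne' p hp.ne_one
    obtain ⟨b, hb⟩ := h1 n r ⟨m, hn⟩
    have hp0 : (p : ℚ) ^ r ≠ 0 := pow_ne_zero _ (by exact_mod_cast hp.ne_zero)
    have e : (a n : ℚ) / (n : ℚ) = (b : ℚ) / (m : ℚ) := by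
      rw [hb, hn]
      push_cast
      rw [mul_div_mul_left _ _ hp0]
    rw [e]
    intro h
    apply hm
    have h4 := Rat.den_dvd b (m : ℤ)
    rw [Rat.divInt_eq_div] at h4
    push_cast at h4
    have h5 : ((b : ℚ) / (m : ℚ)).den ∣ m := by exact_mod_cast h4
    exact h.trans h5

theorem core (N k : ℕ) (hN : N ≠ 0) (hk : 4 ≤ k) (a : ℕ → ℤ) (hF : Frm N k a) (E R : ℕ → Prop)
    (hE : ∀ ε : ℝ, 0 < ε → ∃ X₀ : ℕ, ∀ X ≥ X₀,
      (Set.ncard {p : ℕ | p ≤ X ∧ p.Prime ∧ E p} : ℝ) * Real.log X ≤ ε * (X : ℝ))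
    (h1 : ∀ p : ℕ, p.Prime → ¬ E p → ∀ n r : ℕ, p ^ r ∣ n → (p : ℤ) ^ r ∣ a n)
    (c0 : ℝ) (hc0 : 0 < c0)
    (hR : ∃ X₀ : ℕ, ∀ X ≥ X₀, c0 * (X : ℝ) ≤
      ∑ᶠ p ∈ {p : ℕ | p ≤ X ∧ p.Prime ∧ R p}, Real.log p)
    (h2 : ∀ p : ℕ, p.Prime → R p → ∀ n r : ℕ, 1 ≤ r → p ^ r ∣ n → (p : ℤ) ^ (r + 1) ∣ a n) :
    False := by
  have : NeZero N := ⟨hN⟩
  obtain ⟨C, K, hC⟩ := hF.growth
  refine not_rel hN hk hF (rel_sq (k - 2) (k - 1) (by omega) (hq a) C K (C1_growth hC) E hE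
    (C1_hden a) (fun p hp hE n => C1_hint a p hp (h1 p hp hE) n) R c0 hc0 hR 5
    (12 * (mu1 N + 1)) 0 (by omega) ?_)
  intro p hp _ h5 hR _
  exact ⟨fun w => MN1 N p w, mfam_MN1 N p, hq_MN1 hk hF p h5 (h2 p hp.out hR)⟩

end H6V
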