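import Mathlib

/-!
# H6V, chunk D1 (M), PURE MATHLIB: Chebyshev's bounds for `π(X)` and the conversion of densities, I

PROOF. `pi_upper`: `π(X) log X ≤ C X`: `π(X) ≤ √X + Σ_{√X < p ≤ X} 1` and `Σ_{√X < p ≤ X} log p ≥ (1/2) log X #`, `Σ_{p ≤ X} log p ≤ X log 4`
(`primorial_le_four_pow` or Mathlib's `Chebyshev.theta_le_log4_mul_x`; there may be a ready lemma in
Mathlib.NumberTheory.Chebyshev, look for `primeCounting`), `√X log X ≤ 2X`.
`LO_of_count`: from it, with `c = ε / C`.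
`LO_add`: adding the finitely many primes `p ≤ M` adds at most `(M+1) log X = o(X)` (compare `exc_add` in Lib/H94M/TN.lean, same with `√X`).
-/

namespace H6V

open Filter Topology

theorem pi_upper : ∃ C : ℝ, 0 < C ∧ ∀ X : ℕ, (Nat.primeCounting X : ℝ) * Real.log X ≤ C * X := by
  refine ⟨2 * Real.log 4 + 2, by positivity, fun X => ?_⟩
  rcases Nat.lt_or_ge X 2 with hX | hX
  · have h0 : Nat.primeCounting X = 0 := by
      interval_cases X
      · simp
      · simp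
    rw [h0]
    simp only [Nat.cast_zero, zero_mul]
    positivity
  · have hX1 : (1 : ℝ) < X := by exact_mod_cast (show 1 < X by omega)
    have hX0 : (0 : ℝ) < X := by linarith
    have h1 := Chebyshev.pi_le_log4_mul_div hX1
    rw [Nat.floor_natCast] at h1
    have hlog : 0 < Real.log X := Real.log_pos hX1
    have hsq : Real.log (Real.sqrt X) = Real.log X / 2 := Real.log_sqrt hX0.le
    rw [hsq] at h1
    have h2 : (Nat.primeCounting X : ℝ) * Real.log X ≤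
        (Real.log 4 * X / (Real.log X / 2) + Real.sqrt X) * Real.log X :=
      mul_le_mul_of_nonneg_right h1 hlog.le
    have h3 : (Real.log 4 * X / (Real.log X / 2) + Real.sqrt X) * Real.log X =
        2 * Real.log 4 * X + Real.sqrt X * Real.log X := by
      field_simp
    have h4 : Real.log X ≤ 2 * Real.sqrt X := by
      have h5 := Real.log_le_sub_one_of_pos (Real.sqrt_pos.2 hX0)
      rw [hsq] at h5
      linarith [Real.sqrt_nonneg (X : ℝ)]
    have h6 : Real.sqrt X * Real.log X ≤ 2 * X := by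
      have h7 : Real.sqrt X * Real.log X ≤ Real.sqrt X * (2 * Real.sqrt X) :=
        mul_le_mul_of_nonneg_left h4 (Real.sqrt_nonneg _)
      have h8 : Real.sqrt (X : ℝ) * Real.sqrt X = X := Real.mul_self_sqrt hX0.le
      nlinarith
    rw [h3] at h2
    nlinarith

theorem LO_of_count (S : ℕ → Prop)
    (h : ∀ c : ℝ, 0 < c → ∀ᶠ X : ℕ in atTop,
      (Set.ncard {p : ℕ | p ≤ X ∧ p.Prime ∧ S p} : ℝ) ≤ c * (Nat.primeCounting X : ℝ)) :
    ∀ ε : ℝ, 0 < ε → ∃ X₀ : ℕ, ∀ X ≥ X₀,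
      (Set.ncard {p : ℕ | p ≤ X ∧ p.Prime ∧ S p} : ℝ) * Real.log X ≤ ε * (X : ℝ) := by
  intro ε hε
  obtain ⟨C, hC, hpi⟩ := pi_upper
  obtain ⟨X₀, hX₀⟩ := Filter.eventually_atTop.1 (h (ε / C) (by positivity))
  refine ⟨X₀, fun X hX => ?_⟩
  have h1 := hX₀ X hX
  have hlog : 0 ≤ Real.log (X : ℝ) := Real.log_natCast_nonneg X
  calc (Set.ncard {p : ℕ | p ≤ X ∧ p.Prime ∧ S p} : ℝ) * Real.log X
      ≤ (ε / C * (Nat.primeCounting X : ℝ)) * Real.log X := mul_le_mul_of_nonneg_right h1 hlog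
    _ = ε / C * ((Nat.primeCounting X : ℝ) * Real.log X) := by ring
    _ ≤ ε / C * (C * X) := mul_le_mul_of_nonneg_left (hpi X) (by positivity)
    _ = ε * (X : ℝ) := by
        field_simp

theorem LO_add (S : ℕ → Prop) (M : ℕ)
    (h : ∀ ε : ℝ, 0 < ε → ∃ X₀ : ℕ, ∀ X ≥ X₀,
      (Set.ncard {p : ℕ | p ≤ X ∧ p.Prime ∧ S p} : ℝ) * Real.log X ≤ ε * (X : ℝ)) :
    ∀ ε : ℝ, 0 < ε → ∃ X₀ : ℕ, ∀ X ≥ X₀,
      (Set.ncard {p : ℕ | p ≤ X ∧ p.Prime ∧ (S p ∨ p ≤ M)} : ℝ) * Real.log X ≤ ε * (X : ℝ) := by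
  intro ε hε
  obtain ⟨X1, h1⟩ := h (ε / 2) (by positivity)
  have h3 := (isLittleO_log_rpow_atTop (r := 1) (by norm_num)).comp_tendsto
    (tendsto_natCast_atTop_atTop (R := ℝ))
  have h4 := h3.def (c := ε / (2 * (M + 1))) (by positivity)
  obtain ⟨X2, h2⟩ := Filter.eventually_atTop.1 h4
  refine ⟨max X1 X2, fun X hX => ?_⟩
  have a1 := h1 X (le_trans (le_max_left _ _) hX)
  have a2 := h2 X (le_trans (le_max_right _ _) hX)
  simp only [Function.comp_apply, Real.norm_eq_abs] at a2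
  have a2' : |(X : ℝ)| = X := abs_of_nonneg (Nat.cast_nonneg X)
  rw [Real.rpow_one, a2'] at a2
  have hlog : 0 ≤ Real.log X := Real.log_natCast_nonneg X
  have a3 : Real.log X ≤ ε / (2 * (M + 1)) * X := (le_abs_self _).trans a2
  have a4 : Set.ncard {p : ℕ | p ≤ X ∧ p.Prime ∧ (S p ∨ p ≤ M)} ≤
      Set.ncard {p : ℕ | p ≤ X ∧ p.Prime ∧ S p} + (M + 1) := by
    have hsub : {p : ℕ | p ≤ X ∧ p.Prime ∧ (S p ∨ p ≤ M)} ⊆
        {p : ℕ | p ≤ X ∧ p.Prime ∧ S p} ∪ ((Finset.range (M + 1) : Finset ℕ) : Set ℕ) := by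
      rintro p ⟨b1, b2, b3 | b3⟩
      · exact Or.inl ⟨b1, b2, b3⟩
      · right
        rw [Finset.mem_coe, Finset.mem_range]
        omega
    have hfin : {p : ℕ | p ≤ X ∧ p.Prime ∧ S p}.Finite :=
      (Set.finite_Iic X).subset fun p hp => hp.1
    refine (Set.ncard_le_ncard hsub (hfin.union (Finset.finite_toSet _))).trans ?_
    refine (Set.ncard_union_le _ _).trans ?_
    rw [Set.ncard_coe_finset, Finset.card_range]
  have a5 : (Set.ncard {p : ℕ | p ≤ X ∧ p.Prime ∧ (S p ∨ p ≤ M)} : ℝ) ≤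
      (Set.ncard {p : ℕ | p ≤ X ∧ p.Prime ∧ S p} : ℝ) + (M + 1) := by exact_mod_cast a4
  calc (Set.ncard {p : ℕ | p ≤ X ∧ p.Prime ∧ (S p ∨ p ≤ M)} : ℝ) * Real.log X
      ≤ ((Set.ncard {p : ℕ | p ≤ X ∧ p.Prime ∧ S p} : ℝ) + (M + 1)) * Real.log X :=
        mul_le_mul_of_nonneg_right a5 hlog
    _ = (Set.ncard {p : ℕ | p ≤ X ∧ p.Prime ∧ S p} : ℝ) * Real.log X +
        (M + 1) * Real.log X := by ring
    _ ≤ ε / 2 * X + (M + 1) * (ε / (2 * (M + 1)) * X) := by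
        refine add_le_add a1 (mul_le_mul_of_nonneg_left a3 (by positivity))
    _ = ε * (X : ℝ) := by
        field_simp
        ring

end H6V
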