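import Pool.Agent.Lib.H6V.M2
import Mathlib.NumberTheory.NumberField.Norm

/-!
# H6V, chunk T1 (M): traces

PROOF. `trace_frm`: `b n = Tr (a n)`, `(b n : ℂ) = Σ_σ σ (a n)` over the embeddings `σ : E →ₐ[ℚ] ℂ` (copy `TR_trace` of
Lib/H94M/TR.lean), which is the `n`-th coefficient of the sum of the cusp forms (copy `TR_sum`, with `Gm1 N` and
`one_mem_strictPeriodsG1 N`), so `frm_of_cusp` applies; `b 1 = Tr 1 = [E : ℚ] ≠ 0` (`Algebra.trace_algebraMap`/`map_one`,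
`NumberField.RingOfIntegers.rank`; or from the sum over the embeddings, whose number is `finrank ℚ E > 0`).
See `ordinaryE_of` in Lib/H94M/TR.lean for the same steps.
`trace_dvd`: `x = p^j y`, `Tr (p^j y) = p^j Tr y` (linearity over `ℤ`).
-/

namespace H6V

open H53M H94M H53N UpperHalfPlane NumberField

private theorem T1_trace {E : Type*} [Field E] [NumberField E] (x : 𝓞 E) :
    ((Algebra.trace ℤ (𝓞 E) x : ℤ) : ℂ) = ∑ σ : E →ₐ[ℚ] ℂ, σ (x : E) := by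
  have h1 := trace_eq_sum_embeddings (K := ℚ) (L := E) ℂ (x := (x : E))
  rw [← h1, ← Algebra.coe_trace_int]
  simp

private theorem T1_sum (N k : ℕ) [NeZero N] {ι : Type*} (s : Finset ι)
    (f : ι → CuspForm (Gm1 N) (k : ℤ)) (n : ℕ) :
    PowerSeries.coeff n (qExpansion 1 ((∑ i ∈ s, f i : CuspForm (Gm1 N) (k : ℤ)) : ℍ → ℂ)) =
      ∑ i ∈ s, PowerSeries.coeff n (qExpansion 1 (f i : ℍ → ℂ)) := by
  classical
  induction s using Finset.induction_on with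
  | empty =>
    rw [Finset.sum_empty, Finset.sum_empty]
    have : ((0 : CuspForm (Gm1 N) (k : ℤ)) : ℍ → ℂ) = 0 := rfl
    rw [this, qExpansion_zero]
    simp
  | insert i s hi ih =>
    rw [Finset.sum_insert hi, Finset.sum_insert hi, ← ih, FunLike.coe_add,
      ModularForm.qExpansion_add zero_lt_one (one_mem_strictPeriodsG1 N) (f i) (∑ j ∈ s, f j),
      map_add]

theorem trace_frm (N k : ℕ) (hN : N ≠ 0) (hk : 4 ≤ k) (E : Type*) [Field E] [NumberField E]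
    (a : ℕ → 𝓞 E)
    (hf : ∀ σ : E →+* ℂ, ∃ f : CuspForm (Gm1 N) (k : ℤ),
      ∀ n, (qExpansion 1 (f : ℍ → ℂ)).coeff n = σ (a n))
    (h1 : a 1 = 1) : Frm N k (fun n => Algebra.trace ℤ (𝓞 E) (a n)) := by
  have : NeZero N := ⟨hN⟩
  choose f hf using hf
  have hb : ∀ n, PowerSeries.coeff n (qExpansion 1
      ((∑ σ : E →ₐ[ℚ] ℂ, f (σ : E →+* ℂ) : CuspForm (Gm1 N) (k : ℤ)) : ℍ → ℂ)) =
      ((Algebra.trace ℤ (𝓞 E) (a n) : ℤ) : ℂ) := by
    intro n
    rw [T1_sum, T1_trace]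
    exact Finset.sum_congr rfl fun σ _ => hf (σ : E →+* ℂ) n
  have hb1 : Algebra.trace ℤ (𝓞 E) (a 1) ≠ 0 := by
    intro h0
    have h2 := T1_trace (E := E) (a 1)
    rw [h0, h1] at h2
    have h3 : (∑ σ : E →ₐ[ℚ] ℂ, σ ((1 : 𝓞 E) : E)) = (Fintype.card (E →ₐ[ℚ] ℂ) : ℂ) := by
      simp
    rw [h3, AlgHom.card] at h2
    have h4 : 0 < Module.finrank ℚ E := Module.finrank_pos
    have h5 : (0 : ℂ) = (Module.finrank ℚ E : ℂ) := by simpa using h2
    rw [eq_comm, Nat.cast_eq_zero] at h5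
    omega
  exact frm_of_cusp N k hN hk _ _ hb hb1

theorem trace_dvd (E : Type*) [Field E] [NumberField E] (p j : ℕ) (x : 𝓞 E)
    (h : (p : 𝓞 E) ^ j ∣ x) : (p : ℤ) ^ j ∣ Algebra.trace ℤ (𝓞 E) x := by
  obtain ⟨y, rfl⟩ := h
  have h6 : (p : 𝓞 E) ^ j * y = ((p : ℤ) ^ j) • y := by
    rw [zsmul_eq_mul]
    push_cast
    rfl
  rw [h6, map_smul, smul_eq_mul]
  exact dvd_mul_right _ _

end H6V
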