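import Pool.Agent.Lib.H6V.C1
import Pool.Agent.Lib.H6V.H1
import Pool.Agent.Lib.H6V.T1
import Pool.Agent.Lib.H6V.L1
import Pool.Agent.Lib.H6V.D1
import Pool.Agent.Lib.H6V.D2

/-!
# H6V, chunk Fin (M): the dichotomy

PROOF. Let `Ord p`, `Sml p` be the two conditions in the conclusion. Suppose the first alternative fails: for all `c > 0`, eventually
`#Ord(X) < c π(X)`; so `Ord` is `o(X/log X)` (`LO_of_count`). Suppose the second fails: there is `ε > 0` with eventually `#Sml(X) < (1-ε) π(X)`.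
Let `M` be larger than `N` and `|discr E|`, `E' p : Ord p ∨ p ≤ M` (`LO_add`), `R p : ¬ Sml p ∧ M < p`. `#R(X) ≥ π(X) - #Sml(X) - M - 1 ≥ (ε/2) π(X)` for large `X`
(`π(X) → ∞`), so `theta_of_count` applies. For a prime `p > M` not in `Ord`: `p ∣ a p` (`ord_or_dvd`, `p ∤ N`, `p ∤ discr E`), so
`rec_dvd` with `j = 1` gives `p^r ∣ a n` for `p^r ∣ n`, `r ≥ 1` (`r = 0` trivial), so `p^r ∣ Tr (a n)` (`trace_dvd`). For `p` in `R`: `p² ∣ a p` (`small_or_dvd`), so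
`rec_dvd` with `j = 2` (`k ≥ 4`) and `trace_dvd`: `p^(r+1) ∣ Tr (a n)`. `core` for `trace_frm` gives the contradiction.
-/

namespace H6V

open H53M H94M H53N UpperHalfPlane NumberField Filter Topology

private theorem fin_pi (X : ℕ) :
    ((Nat.primeCounting X : ℕ) : ℝ) = (Set.ncard {p : ℕ | p ≤ X ∧ p.Prime} : ℝ) := by
  classical
  have h1 : {p : ℕ | p ≤ X ∧ p.Prime} =
      (((Finset.range (X + 1)).filter Nat.Prime : Finset ℕ) : Set ℕ) := by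
    ext p
    simp only [Set.mem_ofPred_eq, Finset.coe_filter, Finset.mem_range]
    constructor
    · rintro ⟨h, h'⟩
      exact ⟨by omega, h'⟩
    · rintro ⟨h, h'⟩
      exact ⟨by omega, h'⟩
  rw [h1, Set.ncard_coe_finset]
  unfold Nat.primeCounting Nat.primeCounting'
  rw [Nat.count_eq_card_filter_range]

private theorem fin_cover (M X : ℕ) (S : ℕ → Prop) :
    ((Nat.primeCounting X : ℕ) : ℝ) ≤ (Set.ncard {p : ℕ | p ≤ X ∧ p.Prime ∧ S p} : ℝ) +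
      (Set.ncard {p : ℕ | p ≤ X ∧ p.Prime ∧ (¬ S p ∧ M < p)} : ℝ) + ((M : ℝ) + 1) := by
  rw [fin_pi]
  have hfin : ∀ Q : ℕ → Prop, {p : ℕ | p ≤ X ∧ p.Prime ∧ Q p}.Finite := fun Q =>
    (Set.finite_Iic X).subset fun p hp => hp.1
  have h1 : {p : ℕ | p ≤ X ∧ p.Prime} ⊆ ({p : ℕ | p ≤ X ∧ p.Prime ∧ S p} ∪
      {p : ℕ | p ≤ X ∧ p.Prime ∧ (¬ S p ∧ M < p)}) ∪ ((Finset.range (M + 1) : Finset ℕ) : Set ℕ) := by
    rintro p ⟨h2, h3⟩
    by_cases h4 : S p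
    · exact Or.inl (Or.inl ⟨h2, h3, h4⟩)
    by_cases h5 : M < p
    · exact Or.inl (Or.inr ⟨h2, h3, h4, h5⟩)
    · right
      rw [Finset.mem_coe, Finset.mem_range]
      omega
  have h2 := Set.ncard_le_ncard h1 (((hfin _).union (hfin _)).union (Finset.finite_toSet _))
  have h3 := h2.trans (Set.ncard_union_le _ _)
  have h4 := h3.trans (Nat.add_le_add_right (Set.ncard_union_le _ _) _)
  rw [Set.ncard_coe_finset, Finset.card_range] at h4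
  exact_mod_cast h4

theorem dichotomy (N k : ℕ) (hN : N ≠ 0) (hk : 4 ≤ k) (E : Type*) [Field E] [NumberField E]
    (a χ : ℕ → 𝓞 E)
    (hf : ∀ σ : E →+* ℂ, ∃ f : CuspForm (Gm1 N) (k : ℤ),
      ∀ n, (qExpansion 1 (f : ℍ → ℂ)).coeff n = σ (a n))
    (h1 : a 1 = 1) (hχ : ∀ p : ℕ, p.Prime → ¬ p ∣ N → IsUnit (χ p))
    (hH : ∀ p : ℕ, p.Prime → ¬ p ∣ N → ∀ n,
      a (p * n) = a p * a n - (if p ∣ n then χ p * (p : 𝓞 E) ^ (k - 1) * a (n / p) else 0)) :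
    (∃ c : ℝ, 0 < c ∧ ∃ᶠ X : ℕ in atTop, c * (Nat.primeCounting X : ℝ) ≤
      (Set.ncard {p : ℕ | p ≤ X ∧ p.Prime ∧ (¬ p ∣ N ∧ ∃ (_ : Fact p.Prime)
        (τ : E →+* PadicAlgCl p) (x y : PadicAlgCl p),
        x + y = τ (a p : E) ∧ x * y = τ (χ p : E) * (p : PadicAlgCl p) ^ (k - 1) ∧
          ‖x‖ = 1 ∧ ‖y‖ = (p : ℝ) ^ (-((k : ℤ) - 1)))} : ℝ)) ∨
    (∀ ε : ℝ, 0 < ε → ∃ᶠ X : ℕ in atTop, (1 - ε) * (Nat.primeCounting X : ℝ) ≤
      (Set.ncard {p : ℕ | p ≤ X ∧ p.Prime ∧ (¬ p ∣ N ∧ ∃ (_ : Fact p.Prime)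
        (τ : E →+* PadicAlgCl p) (x y : PadicAlgCl p),
        x + y = τ (a p : E) ∧ x * y = τ (χ p : E) * (p : PadicAlgCl p) ^ (k - 1) ∧
          (p : ℝ)⁻¹ ≤ ‖x‖)} : ℝ)) := by
  classical
  obtain ⟨Ord, hOrd⟩ : ∃ Ord : ℕ → Prop, Ord = fun p => (¬ p ∣ N ∧ ∃ (_ : Fact p.Prime)
        (τ : E →+* PadicAlgCl p) (x y : PadicAlgCl p),
        x + y = τ (a p : E) ∧ x * y = τ (χ p : E) * (p : PadicAlgCl p) ^ (k - 1) ∧
          ‖x‖ = 1 ∧ ‖y‖ = (p : ℝ) ^ (-((k : ℤ) - 1))) := ⟨_, rfl⟩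
  obtain ⟨Sml, hSml⟩ : ∃ Sml : ℕ → Prop, Sml = fun p => (¬ p ∣ N ∧ ∃ (_ : Fact p.Prime)
        (τ : E →+* PadicAlgCl p) (x y : PadicAlgCl p),
        x + y = τ (a p : E) ∧ x * y = τ (χ p : E) * (p : PadicAlgCl p) ^ (k - 1) ∧
          (p : ℝ)⁻¹ ≤ ‖x‖) := ⟨_, rfl⟩
  by_contra hcon
  rw [not_or] at hcon
  obtain ⟨hc1, hc2⟩ := hcon
  have hO : ∀ c : ℝ, 0 < c → ∀ᶠ X : ℕ in atTop,
      (Set.ncard {p : ℕ | p ≤ X ∧ p.Prime ∧ Ord p} : ℝ) ≤ c * (Nat.primeCounting X : ℝ) := by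
    intro c hc
    have h3 := fun h => hc1 ⟨c, hc, h⟩
    have h4 := Filter.not_frequently.1 h3
    rw [hOrd]
    exact h4.mono fun X hX => (not_le.1 hX).le
  push Not at hc2
  obtain ⟨ε, hε, hc3⟩ := hc2
  have hS : ∀ᶠ X : ℕ in atTop, (Set.ncard {p : ℕ | p ≤ X ∧ p.Prime ∧ Sml p} : ℝ) ≤
      (1 - ε) * (Nat.primeCounting X : ℝ) := by
    rw [hSml]
    exact hc3.mono fun X hX => hX.le
  obtain ⟨M, hM⟩ : ∃ M : ℕ, M = N + (discr E).natAbs := ⟨_, rfl⟩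
  obtain ⟨R, hRdef⟩ : ∃ R : ℕ → Prop, R = fun p => (¬ Sml p ∧ M < p) := ⟨_, rfl⟩
  -- facts on large primes
  have hpN : ∀ p : ℕ, M < p → ¬ p ∣ N := by
    intro p hp h
    have := Nat.le_of_dvd (Nat.pos_of_ne_zero hN) h
    omega
  have hpd : ∀ p : ℕ, M < p → ¬ (p : ℤ) ∣ discr E := by
    intro p hp h
    have h5 := Int.natAbs_dvd_natAbs.2 h
    rw [Int.natAbs_natCast] at h5
    have h6 : (discr E).natAbs ≠ 0 := Int.natAbs_ne_zero.2 (NumberField.discr_ne_zero E)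
    have := Nat.le_of_dvd (Nat.pos_of_ne_zero h6) h5
    omega
  have hcount : ∀ᶠ X : ℕ in atTop, ε / 2 * (Nat.primeCounting X : ℝ) ≤
      (Set.ncard {p : ℕ | p ≤ X ∧ p.Prime ∧ R p} : ℝ) := by
    have hlarge : ∀ᶠ X : ℕ in atTop, 2 * ((M : ℝ) + 1) / ε ≤ (Nat.primeCounting X : ℝ) := by
      have h5 := (tendsto_natCast_atTop_atTop (R := ℝ)).comp Nat.tendsto_primeCounting
      exact h5.eventually_ge_atTop _
    filter_upwards [hS, hlarge] with X h5 h6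
    have h7 := fin_cover M X Sml
    rw [hRdef]
    rw [div_le_iff₀ hε] at h6
    nlinarith
  obtain ⟨c0, hc0, hR⟩ := theta_of_count R (ε / 2) (by positivity) hcount
  refine core N k hN hk _ (trace_frm N k hN hk E a hf h1) (fun p => Ord p ∨ p ≤ M) R
    (LO_add Ord M (LO_of_count Ord hO)) ?_ c0 hc0 hR ?_
  · intro p hp hE n r hn
    rw [not_or, not_le] at hE
    obtain ⟨hE1, hE2⟩ := hE
    refine trace_dvd E p r (a n) ?_
    rcases Nat.eq_zero_or_pos r with h0 | h0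
    · rw [h0, pow_zero]
      exact one_dvd _
    have hpf : Fact p.Prime := ⟨hp⟩
    have hd : (p : 𝓞 E) ∣ a p := by
      rcases ord_or_dvd k p (by omega) (hpd p hE2) (a p) (χ p) (hχ p hp (hpN p hE2)) with h5 | h5
      · exact h5
      · exfalso
        apply hE1
        rw [hOrd]
        exact ⟨hpN p hE2, hpf, h5⟩
    have h6 := rec_dvd a χ p k 1 hp le_rfl (by omega) (hH p hp (hpN p hE2))
      (by rwa [pow_one]) n r h0 hn
    rwa [Nat.add_sub_cancel] at h6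
  · intro p hp hRp n r hr hn
    rw [hRdef] at hRp
    obtain ⟨hR1, hR2⟩ := hRp
    refine trace_dvd E p (r + 1) (a n) ?_
    have hpf : Fact p.Prime := ⟨hp⟩
    have hd : (p : 𝓞 E) ^ 2 ∣ a p := by
      rcases small_or_dvd k p (hpd p hR2) (a p) (χ p) with h5 | h5
      · exact h5
      · exfalso
        apply hR1
        rw [hSml]
        exact ⟨hpN p hR2, hpf, h5⟩
    exact rec_dvd a χ p k 2 hp (by norm_num) (by omega) (hH p hp (hpN p hR2)) hd n r hr hn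

end H6V
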