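import Pool.Agent.Lib.H6V.K1

/-!
# H6V, chunk K2 (S/M): the reduction of `θ⁻¹ f` modulo the gain primes

PROOF. `KArr.hs_MN1` (Lib/H53N/K.lean) for `karr a hF.growth`, `karr_hs`, `karr_G`, with `Fintype.card (Fin 1) = 1`:
`1 * k + 2 * 1 - 4 + (p-1)(2 * 1 + k - 3) = (k - 2) + (p-1)(k-1)`. The hypothesis: if `p ∣ n`, `n ≥ 1`, let `r ≥ 1` be the
exponent of `p` in `n`, `n = p^r m`, `a n = p^(r+1) b`, so `a n * 1 / n = p b / m` with `p ∤ m`, so `p` divides the numerator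
(`Rat.num`: `(p b / m)`, if `x m = p b` in `ℚ`, then `x.num m = p b x.den` in `ℤ`, so `p ∣ x.num m`, `p` prime, `p ∤ m`).
-/

namespace H6V

open H53M H94M H53N H36H PowerSeries

private theorem k2_num {p n : ℕ} (hp : p.Prime) (hn : 0 < n) (hpn : p ∣ n) {c : ℤ}
    (hc : ∀ r : ℕ, 1 ≤ r → p ^ r ∣ n → (p : ℤ) ^ (r + 1) ∣ c) :
    (p : ℤ) ∣ ((c : ℚ) / (n : ℚ)).num := by
  obtain ⟨r, m, hm, hnr⟩ : ∃ r m, ¬ p ∣ m ∧ n = p ^ r * m :=
    Nat.exists_eq_pow_mul_and_not_dvd hn.ne' p hp.ne_one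
  have hr : 1 ≤ r := by
    rcases Nat.eq_zero_or_pos r with h | h
    · subst h
      rw [pow_zero, one_mul] at hnr
      exact absurd (hnr ▸ hpn) hm
    · exact h
  obtain ⟨b, hb⟩ := hc r hr ⟨m, hnr⟩
  obtain ⟨x, hx⟩ : ∃ x : ℚ, x = (c : ℚ) / (n : ℚ) := ⟨_, rfl⟩
  rw [← hx]
  have hp0 : (p : ℚ) ≠ 0 := by exact_mod_cast hp.ne_zero
  have hm0 : (m : ℚ) ≠ 0 := by
    intro h
    have h' : m = 0 := by exact_mod_cast h
    rw [h', mul_zero] at hnr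
    omega
  have h1 : x * m = p * b := by
    rw [hx, hb, hnr]
    push_cast
    field_simp
    ring
  have h2 : x.num * (m : ℤ) = p * b * x.den := by
    have h3 : (x.num : ℚ) * m = p * b * x.den := by
      have h4 := Rat.num_div_den x
      have h5 : (x.den : ℚ) ≠ 0 := by exact_mod_cast x.den_ne_zero
      have h6 : (x.num : ℚ) = x * x.den := (div_eq_iff h5).1 h4
      rw [h6]
      linear_combination (x.den : ℚ) * h1
    exact_mod_cast h3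
  have h3 : (p : ℤ) ∣ x.num * (m : ℤ) := ⟨b * x.den, by rw [h2]; ring⟩
  rcases (Nat.prime_iff_prime_int.1 hp).dvd_or_dvd h3 with h | h
  · exact h
  · exact absurd (Int.natCast_dvd_natCast.1 h) hm

theorem hq_MN1 {N k : ℕ} [NeZero N] (hk : 4 ≤ k) {a : ℕ → ℤ} (hF : Frm N k a) (p : ℕ)
    [Fact p.Prime] (hp : 5 < p)
    (h2 : ∀ n r : ℕ, 1 ≤ r → p ^ r ∣ n → (p : ℤ) ^ (r + 1) ∣ a n) :
    redQ p (hq a) ∈ MN1 N p (k - 2 + (p - 1) * (k - 1)) := by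
  have h := (karr a hF.growth).hs_MN1 (N := N) (k := k) (by omega) (karr_G hF) p hp
    (by rw [Fintype.card_fin]; omega) (by
    intro ξ hξ
    have h1 : ((karr a hF.growth).c ξ * (karr a hF.growth).q2 ξ : ℚ) /
        ((karr a hF.growth).nm ξ : ℚ) = ((a ξ.1 : ℤ) : ℚ) / ((ξ.1 : ℕ) : ℚ) := by
      change ((a ξ.1 : ℤ) : ℚ) * ((1 : ℤ) : ℚ) / (((ξ.1 : ℕ) : ℤ) : ℚ) = _
      push_cast
      rw [mul_one]
    rw [h1]
    have h3 : (p : ℤ) ∣ ((ξ.1 : ℕ) : ℤ) := hξ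
    exact k2_num Fact.out ξ.2 (Int.natCast_dvd_natCast.1 h3) (fun r hr hd => h2 ξ.1 r hr hd))
  rw [karr_hs] at h
  have e : Fintype.card (Fin 1) * k + 2 * Fintype.card (Fin 1) - 4 +
      (p - 1) * (2 * Fintype.card (Fin 1) + k - 3) = k - 2 + (p - 1) * (k - 1) := by
    rw [Fintype.card_fin, one_mul, mul_one]
    have e1 : k + 2 - 4 = k - 2 := by omega
    have e2 : 2 + k - 3 = k - 1 := by omega
    rw [e1, e2]
  rw [e] at h
  exact h

end H6V
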