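import Pool.Agent.Lib.H6V.Defs

/-!
# H6V, chunk X2 (M): limits of `EE b j` at real points and at infinity

PROOF. `EE_lim`: the `n`-th term of `y^m EE b (K-m) (x + iy)` is
`b(n) n^(-K) (ny)^m e(nx) exp(-2πny)` (`n ≥ 1`; for `n = 0` it is `0` because of `b 0 = 0`), its norm at most
`‖b n‖ / n^K * M` with `M = sup_{t ≥ 0} t^m exp(-2πt)` (finite: e.g. `t^m ≤ m! exp t`, `Real.pow_div_factorial_le_exp`,
so `t^m exp(-2πt) ≤ m!`). For fixed `n` it tends to `0` as `y → 0+` (`m ≥ 1`). Use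
`tendsto_tsum_of_dominated_convergence` with the bound `‖b n‖ / n^K * m!`.
`EE_lim0`: the same with `m = 0`: the terms are `b(n) n^(-K) e(nx) exp(-2πny)`, norm at most `‖b n‖/n^K`, and tend to
the terms of `EE b K x` as `y → 0+`.
`EE_inf`: for `y ≥ 1` the terms of `EE b 1 (x+iy)` are bounded by `C (n+1)^K exp(-2πn)` (summable:
`summable_pow_mul_geometric_of_norm_lt_one`) and each one tends to `0` (`n ≥ 1`: `exp(-2πny) → 0`; `n = 0`: it is `0`
since `(0:ℂ)⁻¹ = 0`); compare `ev_tendsto` in Lib/H53M/X17.lean.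
-/

namespace H6V

open H53M Filter Topology

private theorem X2_norm (n : ℕ) (x y : ℝ) :
    ‖Complex.exp (2 * Real.pi * Complex.I * (n * ((x : ℂ) + (y : ℂ) * Complex.I)))‖ =
      Real.exp (-(2 * Real.pi * (n * y))) := by
  rw [Complex.norm_exp]
  congr 1
  simp [Complex.mul_re, Complex.mul_im]

private theorem X2_cont (n : ℕ) (x : ℝ) (c : ℂ) : Continuous fun y : ℝ =>
    c * Complex.exp (2 * Real.pi * Complex.I * (n * ((x : ℂ) + (y : ℂ) * Complex.I))) := by
  have := Complex.continuous_ofReal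
  fun_prop

theorem EE_lim (b : ℕ → ℂ) (K m : ℕ) (hm : 1 ≤ m) (hmK : m ≤ K) (hb0 : b 0 = 0)
    (hs : Summable fun n : ℕ => ‖b n‖ / (n : ℝ) ^ K) (x : ℝ) :
    Tendsto (fun y : ℝ => (y : ℂ) ^ m * EE b (K - m) (x + y * Complex.I)) (𝓝[>] 0) (𝓝 0) := by
  have hz : (∑' _ : ℕ, (0 : ℂ)) = 0 := tsum_zero
  rw [← hz]
  have he : (fun y : ℝ => (y : ℂ) ^ m * EE b (K - m) (x + y * Complex.I)) = fun y : ℝ =>
      ∑' n : ℕ, (y : ℂ) ^ m * (b n * ((n : ℂ) ^ (K - m))⁻¹ *
        Complex.exp (2 * Real.pi * Complex.I * (n * ((x : ℂ) + (y : ℂ) * Complex.I)))) := by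
    funext y
    unfold EE
    rw [tsum_mul_left]
  rw [he]
  refine tendsto_tsum_of_dominated_convergence
    (bound := fun n => ‖b n‖ / (n : ℝ) ^ K * (m.factorial : ℝ)) (hs.mul_right _) ?_ ?_
  · intro n
    refine Tendsto.mono_left ?_ nhdsWithin_le_nhds
    have hc : Continuous fun y : ℝ => (y : ℂ) ^ m * (b n * ((n : ℂ) ^ (K - m))⁻¹ *
        Complex.exp (2 * Real.pi * Complex.I * (n * ((x : ℂ) + (y : ℂ) * Complex.I)))) :=
      (Complex.continuous_ofReal.pow m).mul (X2_cont n x _)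
    have h0 := hc.tendsto 0
    rw [Complex.ofReal_zero, zero_pow (by omega : m ≠ 0), zero_mul] at h0
    exact h0
  · filter_upwards [self_mem_nhdsWithin] with y hy n
    have hy0 : (0 : ℝ) < y := hy
    by_cases hn : n = 0
    · subst hn
      simp [hb0]
    · have hn0 : (0 : ℝ) < n := Nat.cast_pos.2 (Nat.pos_of_ne_zero hn)
      have hpi := Real.pi_pos
      have ht : 0 ≤ (n : ℝ) * y := by positivity
      have h1 : ((n : ℝ) * y) ^ m * Real.exp (-(2 * Real.pi * (n * y))) ≤ m.factorial := by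
        have h2 := Real.pow_div_factorial_le_exp ((n : ℝ) * y) ht m
        have hf : (0 : ℝ) < m.factorial := by exact_mod_cast Nat.factorial_pos m
        rw [div_le_iff₀ hf] at h2
        have h3 : Real.exp (-(2 * Real.pi * (n * y))) ≤ Real.exp (-(n * y)) := by
          rw [Real.exp_le_exp]
          have h5 := Real.pi_gt_three
          nlinarith
        calc ((n : ℝ) * y) ^ m * Real.exp (-(2 * Real.pi * (n * y)))
            ≤ (Real.exp (n * y) * m.factorial) * Real.exp (-(n * y)) :=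
              mul_le_mul h2 h3 (Real.exp_pos _).le (by positivity)
          _ = m.factorial := by
              rw [mul_right_comm, ← Real.exp_add, add_neg_cancel, Real.exp_zero, one_mul]
      rw [norm_mul, norm_mul, norm_mul, X2_norm, norm_pow, norm_inv, norm_pow, Complex.norm_real,
        Complex.norm_natCast, Real.norm_of_nonneg hy0.le]
      have h6 : ((n : ℝ) ^ (K - m))⁻¹ = (n : ℝ) ^ m / (n : ℝ) ^ K := by
        rw [eq_div_iff (by positivity), inv_mul_eq_div, div_eq_iff (by positivity), ← pow_add]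
        congr 1
        omega
      rw [h6]
      calc y ^ m * (‖b n‖ * ((n : ℝ) ^ m / (n : ℝ) ^ K) * Real.exp (-(2 * Real.pi * (n * y))))
          = ‖b n‖ / (n : ℝ) ^ K * (((n : ℝ) * y) ^ m * Real.exp (-(2 * Real.pi * (n * y)))) := by
            rw [mul_pow]
            ring
        _ ≤ ‖b n‖ / (n : ℝ) ^ K * (m.factorial : ℝ) :=
            mul_le_mul_of_nonneg_left h1 (by positivity)

theorem EE_lim0 (b : ℕ → ℂ) (K : ℕ) (hK : 1 ≤ K)
    (hs : Summable fun n : ℕ => ‖b n‖ / (n : ℝ) ^ K) (x : ℝ) :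
    Tendsto (fun y : ℝ => EE b K (x + y * Complex.I)) (𝓝[>] 0) (𝓝 (EE b K (x : ℂ))) := by
  unfold EE
  refine tendsto_tsum_of_dominated_convergence
    (bound := fun n => ‖b n‖ / (n : ℝ) ^ K) hs ?_ ?_
  · intro n
    refine Tendsto.mono_left ?_ nhdsWithin_le_nhds
    have h0 := (X2_cont n x (b n * ((n : ℂ) ^ K)⁻¹)).tendsto 0
    rw [Complex.ofReal_zero, zero_mul, add_zero] at h0
    exact h0
  · filter_upwards [self_mem_nhdsWithin] with y hy n
    have hy0 : (0 : ℝ) < y := hy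
    have hpi := Real.pi_pos
    rw [norm_mul, norm_mul, X2_norm, norm_inv, norm_pow, Complex.norm_natCast, ← div_eq_mul_inv]
    refine mul_le_of_le_one_right (by positivity) ?_
    rw [Real.exp_le_one_iff]
    have : 0 ≤ 2 * Real.pi * ((n : ℝ) * y) := by positivity
    linarith

theorem EE_inf (b : ℕ → ℂ) (C : ℝ) (K : ℕ) (hb : ∀ n, ‖b n‖ ≤ C * ((n : ℝ) + 1) ^ K) (x : ℝ) :
    Tendsto (fun y : ℝ => EE b 1 (x + y * Complex.I)) atTop (𝓝 0) := by
  have hC : 0 ≤ C := by
    have h := (norm_nonneg _).trans (hb 0)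
    simpa using h
  have hpi := Real.pi_pos
  have hz : (∑' _ : ℕ, (0 : ℂ)) = 0 := tsum_zero
  rw [← hz]
  unfold EE
  have hr : ‖Real.exp (-(2 * Real.pi))‖ < 1 := by
    rw [Real.norm_of_nonneg (Real.exp_pos _).le, Real.exp_lt_one_iff]
    linarith
  have hs : Summable fun n : ℕ => C * ((n : ℝ) + 1) ^ K * Real.exp (-(2 * Real.pi)) ^ n := by
    have h1 : Summable fun n : ℕ => (n : ℝ) ^ K * Real.exp (-(2 * Real.pi)) ^ n :=
      summable_pow_mul_geometric_of_norm_lt_one K hr
    have h2 := (summable_nat_add_iff 1).2 h1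
    refine (h2.mul_left (C * (Real.exp (-(2 * Real.pi)))⁻¹)).congr fun n => ?_
    have h3 : Real.exp (-(2 * Real.pi)) ≠ 0 := (Real.exp_pos _).ne'
    push_cast
    field_simp
    ring
  refine tendsto_tsum_of_dominated_convergence
    (bound := fun n => C * ((n : ℝ) + 1) ^ K * Real.exp (-(2 * Real.pi)) ^ n) hs ?_ ?_
  · intro n
    rw [tendsto_zero_iff_norm_tendsto_zero]
    by_cases hn : n = 0
    · subst hn
      simp
    · have hn0 : (0 : ℝ) < n := Nat.cast_pos.2 (Nat.pos_of_ne_zero hn)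
      have h1 : Tendsto (fun y : ℝ => Real.exp (-(2 * Real.pi * (n * y)))) atTop (𝓝 0) := by
        rw [Real.tendsto_exp_comp_nhds_zero]
        refine tendsto_neg_atTop_atBot.comp ?_
        have hp : (0 : ℝ) < 2 * Real.pi * n := by positivity
        refine (Filter.Tendsto.const_mul_atTop hp tendsto_id).congr fun y => ?_
        simp only [id]
        ring
      have h2 := h1.const_mul ‖b n * ((n : ℂ) ^ 1)⁻¹‖
      rw [mul_zero] at h2
      refine h2.congr fun y => ?_
      rw [norm_mul (b n * ((n : ℂ) ^ 1)⁻¹), X2_norm]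
  · filter_upwards [eventually_ge_atTop (1 : ℝ)] with y hy n
    rw [norm_mul, norm_mul, X2_norm, norm_inv, norm_pow, Complex.norm_natCast, pow_one]
    have h1 : ((n : ℝ))⁻¹ ≤ 1 := by
      rcases Nat.eq_zero_or_pos n with h | h
      · subst h
        simp
      · exact inv_le_one_of_one_le₀ (by exact_mod_cast h)
    have h2 : Real.exp (-(2 * Real.pi * (n * y))) ≤ Real.exp (-(2 * Real.pi)) ^ n := by
      rw [← Real.exp_nat_mul, Real.exp_le_exp]
      have h3 : (n : ℝ) * 1 ≤ n * y := mul_le_mul_of_nonneg_left hy (Nat.cast_nonneg n)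
      nlinarith
    have h4 : ‖b n‖ * ((n : ℝ))⁻¹ ≤ C * ((n : ℝ) + 1) ^ K := by
      calc ‖b n‖ * ((n : ℝ))⁻¹ ≤ ‖b n‖ * 1 := mul_le_mul_of_nonneg_left h1 (norm_nonneg _)
        _ ≤ C * ((n : ℝ) + 1) ^ K := by
            rw [mul_one]
            exact hb n
    exact mul_le_mul h4 h2 (Real.exp_pos _).le (by positivity)

end H6V
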