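import Mathlib

/-!
# H6V, chunk X6 (S/M), PURE MATHLIB: density of the fractions `-D/C`

PROOF. Given `x : ℝ` and `ε > 0` choose `m ≥ 1` with `(2N)^(1-m) < ε` i.e. `2N < ε (2N)^m` (`2N ≥ 2`), `C = (2N)^m`
and `D = 1 + 2N t`, `t = ⌊-(x C + 1)/(2N)⌋`, so `|-D/C - x| = |(xC + 1)/(2N) + t| 2N/C ≤ 2N/C < ε`. `D` is coprime to `2N`,
hence to `C` (`IsCoprime.pow_right`, `⟨1, -t, _⟩`), so `A D - B C = 1` is solvable; `N ∣ C` as `m ≥ 1`, `N ∣ D - 1`.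
Density: `Metric.dense_iff` or `dense_iff_exists_between`.
-/

namespace H6V

theorem dense_fr (N : ℕ) (hN : N ≠ 0) :
    Dense {x : ℝ | ∃ A B C D : ℤ, A * D - B * C = 1 ∧ (N : ℤ) ∣ C ∧ (N : ℤ) ∣ D - 1 ∧ 0 < C ∧
      x = -(D : ℝ) / (C : ℝ)} := by
  rw [Metric.dense_iff]
  intro x ε hε
  have hN1 : 1 ≤ N := Nat.one_le_iff_ne_zero.mpr hN
  have hNr : (1 : ℝ) ≤ (N : ℝ) := by exact_mod_cast hN1
  have h2N : (1 : ℝ) < 2 * (N : ℝ) := by linarith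
  obtain ⟨m0, hm0⟩ := pow_unbounded_of_one_lt (2 * (N : ℝ) / ε) h2N
  set m : ℕ := m0 + 1 with hm
  have hmlt : 2 * (N : ℝ) / ε < (2 * (N : ℝ)) ^ m := by
    refine lt_of_lt_of_le hm0 ?_
    rw [hm]
    exact pow_le_pow_right₀ h2N.le (Nat.le_succ m0)
  have hCpos : (0 : ℝ) < (2 * (N : ℝ)) ^ m := by positivity
  have hlt : 2 * (N : ℝ) / (2 * (N : ℝ)) ^ m < ε := by
    rw [div_lt_iff₀ hCpos]
    rw [div_lt_iff₀ hε] at hmlt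
    linarith
  set s : ℝ := -(x * (2 * (N : ℝ)) ^ m + 1) / (2 * (N : ℝ)) with hs
  set t : ℤ := ⌊s⌋ with ht
  have hcop : IsCoprime (1 + 2 * (N : ℤ) * t) ((2 * (N : ℤ)) ^ m) :=
    IsCoprime.pow_right ⟨1, -t, by ring⟩
  obtain ⟨a, b, hab⟩ := hcop
  refine ⟨-((1 + 2 * (N : ℤ) * t : ℤ) : ℝ) / (((2 * (N : ℤ)) ^ m : ℤ) : ℝ), ?_, ?_⟩
  · rw [Metric.mem_ball, Real.dist_eq]
    have h2Npos : (0 : ℝ) < 2 * (N : ℝ) := by linarith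
    have hkey : -((1 + 2 * (N : ℤ) * t : ℤ) : ℝ) / (((2 * (N : ℤ)) ^ m : ℤ) : ℝ) - x =
        (s - (t : ℝ)) * (2 * (N : ℝ) / (2 * (N : ℝ)) ^ m) := by
      rw [hs]
      push_cast
      field_simp
      ring
    rw [hkey]
    have h0 : 0 ≤ s - (t : ℝ) := sub_nonneg.mpr (Int.floor_le s)
    have h1 : s - (t : ℝ) < 1 := by
      have := Int.lt_floor_add_one s
      rw [← ht] at this
      linarith
    have hq : 0 < 2 * (N : ℝ) / (2 * (N : ℝ)) ^ m := by positivity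
    rw [abs_of_nonneg (mul_nonneg h0 hq.le)]
    calc (s - (t : ℝ)) * (2 * (N : ℝ) / (2 * (N : ℝ)) ^ m)
        ≤ 1 * (2 * (N : ℝ) / (2 * (N : ℝ)) ^ m) := mul_le_mul_of_nonneg_right h1.le hq.le
      _ < ε := by rw [one_mul]; exact hlt
  · refine ⟨a, -b, (2 * (N : ℤ)) ^ m, 1 + 2 * (N : ℤ) * t, ?_, ?_, ?_, ?_, rfl⟩
    · linarith
    · rw [hm, pow_succ]
      exact Dvd.dvd.mul_left (Dvd.intro_left 2 rfl) _
    · exact ⟨2 * t, by ring⟩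
    · have : (0 : ℤ) < 2 * (N : ℤ) := by
        have : (1 : ℤ) ≤ (N : ℤ) := by exact_mod_cast hN1
        linarith
      positivity

end H6V
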